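import Pool.Agent.Helper51.SigLeo.Estimate

namespace Pool.Agent.Helper51.SigLeo

open NumberField Module TensorProduct

variable (p : ℕ) [hp : Fact p.Prime] {k : Type*} [NormedField k] [NormedAlgebra ℚ_[p] k]

include p in
theorem norm_two_ge : (1 : ℝ) / 2 ≤ ‖(2 : k)‖ := by
  have := one_div_le_norm_natCast p (k := k) 2 (by omega)
  push_cast at this
  exact this

include p in
theorem norm_two_le : ‖(2 : k)‖ ≤ 1 := by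
  have := norm_natCast_le_one p (k := k) 2
  push_cast at this
  exact this

variable [IsUltrametricDist k]

omit [NormedAlgebra ℚ_[p] k] in
theorem norm_add_le_max' (x y : k) : ‖x + y‖ ≤ max ‖x‖ ‖y‖ :=
  IsUltrametricDist.norm_add_le_max _ _

omit [NormedAlgebra ℚ_[p] k] in
theorem norm_add_eq_of_lt {x y : k} (h : ‖y‖ < ‖x‖) : ‖x + y‖ = ‖x‖ := by
  rw [IsUltrametricDist.norm_add_eq_max_of_norm_ne_norm h.ne']
  exact max_eq_left h.le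

variable {p}

theorem log_ne_zero (L : IwasawaLog p k) (η : kˣ) (h1 : (η : k) ≠ 1) (h : ‖(η : k) - 1‖ ≤ 1 / 4) :
    L.toFun η ≠ 0 := by
  intro h0
  have hest := L.norm_sub_le η (h.trans (by norm_num))
  rw [h0, zero_sub, norm_neg, norm_div] at hest
  have h2 := norm_two_ge p (k := k)
  have hη : ‖(η : k)‖ = 1 := by
    have : (η : k) = 1 + (η - 1) := by ring
    rw [this, norm_add_eq_of_lt, norm_one]
    rw [norm_one]; linarith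
  have hη1 : ‖(η : k) + 1‖ = ‖(2 : k)‖ := by
    have : (η : k) + 1 = 2 + (η - 1) := by ring
    rw [this, norm_add_eq_of_lt]
    linarith
  have hne : (η : k) ≠ 0 := Units.ne_zero η
  have hsub : (η : k) - ((η⁻¹ : kˣ) : k) = (η - 1) * (η + 1) / η := by
    rw [Units.val_inv_eq_inv_val]
    field_simp
    ring
  rw [hsub, norm_div, norm_mul, hη, hη1, div_one, mul_div_assoc, div_self (by linarith),
    mul_one] at hest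
  have hpos : 0 < ‖(η : k) - 1‖ := norm_pos_iff.mpr (sub_ne_zero.mpr h1)
  nlinarith [mul_pos hpos hpos]

variable [CharZero k]

/-- The local data at one embedding. -/
theorem local_est (L : IwasawaLog p k)
    {δ θ η κ ω : k} {v w : kˣ} {m : ℝ} (hθ : θ ^ 2 = -δ)
    (hκη : (1 + δ) * κ = η - 1) (hω : ω ^ 2 = -(κ * (1 + δ * κ))) (hκ0 : κ ≠ 0)
    (hδ : ‖δ‖ ≤ 1) (hκm : ‖κ‖ ≤ m) (hm : m ≤ 1 / 4)
    (hv : (v : k) * η = η - 2 * κ + 2 * ω) (hw : (w : k) = 1 + 2 * δ * κ + 2 * θ * ω) :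
    ω ≠ 0 ∧ ‖θ‖ ≤ 1 ∧ ∃ a b : k, L.toFun v = 2 * ω * (1 + a) ∧
      L.toFun w = 2 * ω * (θ + b) ∧ ‖a‖ ≤ 3 * m ∧ ‖b‖ ≤ 3 * m := by
  have h2 := norm_two_ge p (k := k)
  have h2' := norm_two_le p (k := k)
  have hθ1 : ‖θ‖ ≤ 1 := by
    have : ‖θ‖ ^ 2 ≤ 1 := by rw [← norm_pow, hθ, norm_neg]; exact hδ
    nlinarith [norm_nonneg θ]
  have hδκ : ‖δ * κ‖ ≤ ‖κ‖ := by
    rw [norm_mul]
    nlinarith [norm_nonneg κ]
  have h1δκ : ‖1 + δ * κ‖ = 1 := by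
    rw [norm_add_eq_of_lt, norm_one]
    rw [norm_one]; linarith
  have hr2 : ‖ω‖ ^ 2 = ‖κ‖ := by
    rw [← norm_pow, hω, norm_neg, norm_mul, h1δκ, mul_one]
  have hκpos : 0 < ‖κ‖ := norm_pos_iff.mpr hκ0
  have hω0 : ω ≠ 0 := by
    rintro rfl
    rw [norm_zero] at hr2
    norm_num at hr2
    exact hκpos.ne hr2
  have hωpos : 0 < ‖ω‖ := norm_pos_iff.mpr hω0
  have hωhalf : ‖ω‖ ≤ 1 / 2 := by nlinarith
  have hκω : ‖κ‖ ≤ ‖ω‖ := by nlinarith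
  have hη1 : ‖η - 1‖ ≤ ‖κ‖ := by
    rw [← hκη, norm_mul]
    have : ‖1 + δ‖ ≤ 1 := (norm_add_le_max' _ _).trans (max_le (by rw [norm_one]) hδ)
    nlinarith
  have hη : ‖η‖ = 1 := by
    have : η = 1 + (η - 1) := by ring
    rw [this, norm_add_eq_of_lt, norm_one]
    rw [norm_one]; linarith
  have hη0 : η ≠ 0 := by
    rintro rfl
    rw [norm_zero] at hη
    exact zero_ne_one hη
  -- inverses
  have hvi : ((v⁻¹ : kˣ) : k) = (η - 2 * κ - 2 * ω) / η := by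
    rw [Units.val_inv_eq_inv_val]
    apply inv_eq_of_mul_eq_one_left
    have hvv : (v : k) = (η - 2 * κ + 2 * ω) / η := by rw [← hv]; field_simp
    have hprod : (η - 2 * κ + 2 * ω) * (η - 2 * κ - 2 * ω) = η * η := by
      linear_combination -4 * hω + 4 * κ * hκη
    rw [hvv, div_mul_div_comm, mul_comm (η - 2 * κ - 2 * ω), hprod,
      div_self (mul_ne_zero hη0 hη0)]
  have hwi : ((w⁻¹ : kˣ) : k) = 1 + 2 * δ * κ - 2 * θ * ω := by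
    rw [Units.val_inv_eq_inv_val, hw]
    apply inv_eq_of_mul_eq_one_left
    linear_combination (-4 * ω ^ 2) * hθ + (4 * δ) * hω
  have hvs : (v : k) - 1 = 2 * (ω - κ) / η := by
    have hvv : (v : k) = (η - 2 * κ + 2 * ω) / η := by rw [← hv]; field_simp
    rw [hvv]; field_simp; ring
  have hvn : ‖(v : k) - 1‖ ≤ ‖(2 : k)‖ * ‖ω‖ := by
    rw [hvs, norm_div, hη, div_one, norm_mul]
    apply mul_le_mul_of_nonneg_left _ (norm_nonneg _)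
    exact (norm_sub_le_max' _ _).trans (max_le le_rfl hκω)
  have hwn : ‖(w : k) - 1‖ ≤ ‖(2 : k)‖ * ‖ω‖ := by
    have : (w : k) - 1 = 2 * (δ * κ + θ * ω) := by rw [hw]; ring
    rw [this, norm_mul]
    apply mul_le_mul_of_nonneg_left _ (norm_nonneg _)
    refine (norm_add_le_max' _ _).trans (max_le (hδκ.trans hκω) ?_)
    rw [norm_mul]
    nlinarith
  have hlt : ‖(2 : k)‖ * ‖ω‖ ≤ 1 / 2 := by nlinarith
  have hest1 := L.norm_sub_le v (hvn.trans hlt)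
  have hest2 := L.norm_sub_le w (hwn.trans hlt)
  have hv2 : ((v : k) - ((v⁻¹ : kˣ) : k)) / 2 = 2 * ω / η := by
    have hvv : (v : k) = (η - 2 * κ + 2 * ω) / η := by rw [← hv]; field_simp
    rw [hvi, hvv]; field_simp; ring
  have hw2 : ((w : k) - ((w⁻¹ : kˣ) : k)) / 2 = 2 * θ * ω := by
    rw [hwi, hw]; ring
  rw [hv2] at hest1
  rw [hw2] at hest2
  have h2pos : 0 < ‖(2 : k)‖ := by linarith
  have hcube : ∀ t : ℝ, 0 ≤ t → t ≤ ‖(2 : k)‖ * ‖ω‖ →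
      3 * t ^ 3 ≤ (‖(2 : k)‖ * ‖ω‖) * (3 * m) := by
    intro t ht0 ht
    have h5 : t ^ 3 ≤ (‖(2 : k)‖ * ‖ω‖) ^ 3 := pow_le_pow_left₀ ht0 ht 3
    have h6 : (‖(2 : k)‖ * ‖ω‖) ^ 2 ≤ m := by
      rw [mul_pow, hr2]
      have : ‖(2 : k)‖ ^ 2 ≤ 1 := by nlinarith
      nlinarith
    have h7 : 0 ≤ ‖(2 : k)‖ * ‖ω‖ := by positivity
    calc 3 * t ^ 3 ≤ 3 * (‖(2 : k)‖ * ‖ω‖) ^ 3 := by linarith
      _ = (‖(2 : k)‖ * ‖ω‖) * (3 * (‖(2 : k)‖ * ‖ω‖) ^ 2) := by ring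
      _ ≤ _ := mul_le_mul_of_nonneg_left (by linarith) h7
  have h2ω : (2 : k) * ω ≠ 0 := mul_ne_zero two_ne_zero hω0
  have h2ωpos : 0 < ‖(2 : k)‖ * ‖ω‖ := by positivity
  refine ⟨hω0, hθ1, L.toFun v / (2 * ω) - 1, L.toFun w / (2 * ω) - θ,
    ?_, ?_, ?_, ?_⟩
  · field_simp; ring
  · field_simp; ring
  · have h8 : L.toFun v / (2 * ω) - 1 =
        (L.toFun v - 2 * ω / η) / (2 * ω) + (1 / η - 1) := by
      field_simp; ring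
    rw [h8]
    refine (norm_add_le_max' _ _).trans (max_le ?_ ?_)
    · rw [norm_div, norm_mul, div_le_iff₀ h2ωpos, mul_comm (3 * m)]
      exact hest1.trans (hcube _ (norm_nonneg _) hvn)
    · have h9 : 1 / η - 1 = -(η - 1) / η := by field_simp; ring
      rw [h9, norm_div, hη, div_one, norm_neg]
      linarith
  · have h8 : L.toFun w / (2 * ω) - θ =
        (L.toFun w - 2 * θ * ω) / (2 * ω) := by
      field_simp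
    rw [h8, norm_div, norm_mul, div_le_iff₀ h2ωpos, mul_comm (3 * m)]
    exact hest2.trans (hcube _ (norm_nonneg _) hwn)

/-- The regulator determinant does not vanish. -/
theorem det_ne_zero (L : IwasawaLog p k)
    {δ₁ θ₁ η₁ κ₁ ω₁ δ₂ θ₂ η₂ κ₂ ω₂ : k} {v₁ w₁ v₂ w₂ : kˣ} {m : ℝ}
    (hθ₁ : θ₁ ^ 2 = -δ₁) (hκη₁ : (1 + δ₁) * κ₁ = η₁ - 1) (hω₁ : ω₁ ^ 2 = -(κ₁ * (1 + δ₁ * κ₁)))
    (hκ0₁ : κ₁ ≠ 0) (hδ₁ : ‖δ₁‖ ≤ 1) (hκm₁ : ‖κ₁‖ ≤ m)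
    (hv₁ : (v₁ : k) * η₁ = η₁ - 2 * κ₁ + 2 * ω₁)
    (hw₁ : (w₁ : k) = 1 + 2 * δ₁ * κ₁ + 2 * θ₁ * ω₁)
    (hθ₂ : θ₂ ^ 2 = -δ₂) (hκη₂ : (1 + δ₂) * κ₂ = η₂ - 1) (hω₂ : ω₂ ^ 2 = -(κ₂ * (1 + δ₂ * κ₂)))
    (hκ0₂ : κ₂ ≠ 0) (hδ₂ : ‖δ₂‖ ≤ 1) (hκm₂ : ‖κ₂‖ ≤ m)
    (hv₂ : (v₂ : k) * η₂ = η₂ - 2 * κ₂ + 2 * ω₂)
    (hw₂ : (w₂ : k) = 1 + 2 * δ₂ * κ₂ + 2 * θ₂ * ω₂)
    (hm : m ≤ 1 / 4) (hδδ : 3 * m < ‖δ₁ - δ₂‖) :
    L.toFun v₁ * L.toFun w₂ -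
      L.toFun v₂ * L.toFun w₁ ≠ 0 := by
  obtain ⟨hω01, hθ11, a₁, b₁, hLv₁, hLw₁, ha₁, hb₁⟩ :=
    local_est L hθ₁ hκη₁ hω₁ hκ0₁ hδ₁ hκm₁ hm hv₁ hw₁
  obtain ⟨hω02, hθ21, a₂, b₂, hLv₂, hLw₂, ha₂, hb₂⟩ :=
    local_est L hθ₂ hκη₂ hω₂ hκ0₂ hδ₂ hκm₂ hm hv₂ hw₂
  rw [hLv₁, hLw₁, hLv₂, hLw₂]
  have hm0 : 0 ≤ m := (norm_nonneg _).trans hκm₁
  have hm3 : 3 * m ≤ 1 := by linarith
  have hbr : 2 * ω₁ * (1 + a₁) * (2 * ω₂ * (θ₂ + b₂)) - 2 * ω₂ * (1 + a₂) * (2 * ω₁ * (θ₁ + b₁)) =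
      (4 * ω₁ * ω₂) * ((θ₂ - θ₁) + (((b₂ - b₁) + (a₁ * θ₂ - a₂ * θ₁)) +
        (a₁ * b₂ - a₂ * b₁))) := by ring
  rw [hbr]
  refine mul_ne_zero (mul_ne_zero (mul_ne_zero (by norm_num) hω01) hω02) ?_
  intro h0
  have hmul : ∀ x y : k, ‖x‖ ≤ 3 * m → ‖y‖ ≤ 1 → ‖x * y‖ ≤ 3 * m := by
    intro x y hx hy
    rw [norm_mul]
    have := norm_nonneg x
    have := norm_nonneg y
    nlinarith
  have hsmall : ‖((b₂ - b₁) + (a₁ * θ₂ - a₂ * θ₁)) + (a₁ * b₂ - a₂ * b₁)‖ ≤ 3 * m := by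
    refine (norm_add_le_max' _ _).trans (max_le ((norm_add_le_max' _ _).trans (max_le ?_ ?_)) ?_)
    · exact (norm_sub_le_max' _ _).trans (max_le hb₂ hb₁)
    · exact (norm_sub_le_max' _ _).trans (max_le (hmul _ _ ha₁ hθ21) (hmul _ _ ha₂ hθ11))
    · exact (norm_sub_le_max' _ _).trans (max_le (hmul _ _ ha₁ (hb₂.trans hm3))
        (hmul _ _ ha₂ (hb₁.trans hm3)))
  have hθθ : ‖δ₁ - δ₂‖ ≤ ‖θ₂ - θ₁‖ := by
    have : δ₁ - δ₂ = (θ₂ - θ₁) * (θ₂ + θ₁) := by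
      linear_combination hθ₁ - hθ₂
    rw [this, norm_mul]
    have h1 : ‖θ₂ + θ₁‖ ≤ 1 := (norm_add_le_max' _ _).trans (max_le hθ21 hθ11)
    nlinarith [norm_nonneg (θ₂ - θ₁)]
  have heq : θ₂ - θ₁ = -(((b₂ - b₁) + (a₁ * θ₂ - a₂ * θ₁)) + (a₁ * b₂ - a₂ * b₁)) :=
    eq_neg_of_add_eq_zero_left h0
  rw [heq, norm_neg] at hθθ
  linarith

end Pool.Agent.Helper51.SigLeo
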