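import Pool.Agent.Helper51.SigLeo.Delta
import Pool.Agent.Helper51.SigLeo.Det

namespace Pool.Agent.Helper51.SigLeo

open NumberField Module

variable (p : ℕ) [Fact p.Prime] {k : Type*} [NormedField k] [NormedAlgebra ℚ_[p] k]
  [IsUltrametricDist k]

include p in
theorem norm_le_one_of_isIntegral {x : k}
    (hx : (Int.castRingHom k).IsIntegralElem x) : ‖x‖ ≤ 1 := by
  obtain ⟨P, hP, hroot⟩ := hx
  by_contra hgt
  push Not at hgt
  have hn : P.natDegree ≠ 0 := by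
    intro h0
    have : P = 1 := hP.natDegree_eq_zero.mp h0
    rw [this] at hroot
    simp at hroot
  obtain ⟨n, hn'⟩ := Nat.exists_eq_succ_of_ne_zero hn
  rw [hP.as_sum, Polynomial.eval₂_add, Polynomial.eval₂_pow, Polynomial.eval₂_X,
    Polynomial.eval₂_finsetSum] at hroot
  have h1 : x ^ P.natDegree = -∑ i ∈ Finset.range P.natDegree,
      (Polynomial.eval₂ (Int.castRingHom k) x)
        (Polynomial.C (P.coeff i) * Polynomial.X ^ i) :=
    eq_neg_of_add_eq_zero_left hroot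
  have h2 : ‖x ^ P.natDegree‖ ≤ ‖x‖ ^ n := by
    rw [h1, norm_neg]
    refine IsUltrametricDist.norm_sum_le_of_forall_le_of_nonneg (by positivity) fun i hi ↦ ?_
    rw [Finset.mem_range] at hi
    rw [Polynomial.eval₂_mul, Polynomial.eval₂_pow, Polynomial.eval₂_X, Polynomial.eval₂_C,
      norm_mul, norm_pow]
    have h3 : ‖(Int.castRingHom k) (P.coeff i)‖ ≤ 1 := by
      rw [eq_intCast, norm_intCast_eq p]
      exact Padic.norm_int_le_one _
    calc ‖(Int.castRingHom k) (P.coeff i)‖ * ‖x‖ ^ i ≤ 1 * ‖x‖ ^ i :=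
          mul_le_mul_of_nonneg_right h3 (by positivity)
      _ = ‖x‖ ^ i := one_mul _
      _ ≤ ‖x‖ ^ n := pow_le_pow_right₀ hgt.le (by omega)
  rw [norm_pow, hn', pow_succ] at h2
  have h4 : 0 < ‖x‖ ^ n := by positivity
  nlinarith

include p in
theorem norm_map_le_one {F : Type*} [Field F] (ψ : F →+* k) {x : F}
    (hx : IsIntegral ℤ x) : ‖ψ x‖ ≤ 1 := by
  apply norm_le_one_of_isIntegral p
  obtain ⟨P, hP, hroot⟩ := hx
  refine ⟨P, hP, ?_⟩
  have h := congrArg ψ hroot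
  rw [Polynomial.hom_eval₂, map_zero] at h
  rwa [RingHom.ext_int (Int.castRingHom k) (ψ.comp (algebraMap ℤ F))]

theorem exists_modulus {F : Type*} [Field F] [CharZero F] (hd : finrank ℚ F = 2)
    {c : F ≃ₐ[ℚ] F} (hc : c ≠ 1) {δ : F} (hint : IsIntegral ℤ δ)
    (hδ : δ ∉ (algebraMap ℚ F).range) (P : Finset ℕ) :
    ∃ M : ℤ, M ≠ 0 ∧ ∀ p ∈ P, ∀ _ : Fact p.Prime, ∀ (k : Type) [NormedField k]
      [NormedAlgebra ℚ_[p] k] [IsUltrametricDist k] [CharZero k], ‖(M : k)‖ ≤ 1 / 4 ∧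
      ∀ ψ₁ ψ₂ : F →+* k, ψ₁ ≠ ψ₂ → 3 * ‖(M : k)‖ < ‖ψ₁ δ - ψ₂ δ‖ := by
  have hcc : c * c = 1 := tau_mul_tau hd c hc
  have hccx : ∀ z, c (c z) = z := fun z ↦ by
    have := AlgEquiv.congr_fun hcc z
    simpa using this
  have hcint : IsIntegral ℤ (c δ) := hint.map (c.toAlgHom.restrictScalars ℤ)
  obtain ⟨n, hn⟩ : ∃ n : ℤ, (δ - c δ) ^ 2 = n := by
    apply int_of_integral_rat
    · exact fixed_rat hd hc (by rw [map_pow, map_sub, hccx]; ring)
    · exact (hint.sub hcint).pow 2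
  have hn0 : n ≠ 0 := by
    rintro rfl
    rw [Int.cast_zero] at hn
    have : δ - c δ = 0 := by simpa using hn
    exact hδ (fixed_rat hd hc (sub_eq_zero.mp this).symm)
  refine ⟨(∏ q ∈ P.filter Nat.Prime, (q : ℤ)) ^ 2 * n, ?_, ?_⟩
  · refine mul_ne_zero (pow_ne_zero _ (Finset.prod_ne_zero_iff.mpr fun q hq ↦ ?_)) hn0
    exact_mod_cast (Finset.mem_filter.mp hq).2.ne_zero
  · intro p hp hpf k _ _ _ _
    have hprod : ‖((∏ q ∈ P.filter Nat.Prime, (q : ℤ) : ℤ) : k)‖ ≤ 1 / 2 := by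
      have hmem : p ∈ P.filter Nat.Prime := Finset.mem_filter.mpr ⟨hp, hpf.out⟩
      rw [← Finset.mul_prod_erase _ _ hmem, Int.cast_mul, norm_mul, norm_intCast_eq p (k := k),
        norm_intCast_eq p (k := k)]
      have h1 : ‖(((p : ℤ) : ℤ) : ℚ_[p])‖ ≤ 1 / 2 := by
        rw [Int.cast_natCast, Padic.norm_p]
        have : (2 : ℝ) ≤ p := by exact_mod_cast hpf.out.two_le
        rw [one_div]
        exact inv_anti₀ (by norm_num) this
      have h2 := Padic.norm_int_le_one (p := p)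
        (∏ x ∈ (P.filter Nat.Prime).erase p, (x : ℤ))
      have h4 := norm_nonneg ((∏ x ∈ (P.filter Nat.Prime).erase p, (x : ℤ) : ℤ) : ℚ_[p])
      have h5 := mul_le_mul h1 h2 h4 (by norm_num)
      rw [mul_one] at h5
      exact h5
    have hnle : ‖(n : k)‖ ≤ 1 := by
      rw [norm_intCast_eq p]; exact Padic.norm_int_le_one n
    have hnpos : 0 < ‖(n : k)‖ := norm_pos_iff.mpr (by exact_mod_cast hn0)
    have hM : ‖(((∏ q ∈ P.filter Nat.Prime, (q : ℤ)) ^ 2 * n : ℤ) : k)‖ ≤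
        1 / 4 * ‖(n : k)‖ := by
      rw [Int.cast_mul, Int.cast_pow, norm_mul, norm_pow]
      apply mul_le_mul_of_nonneg_right _ hnpos.le
      have h5 := norm_nonneg ((∏ q ∈ P.filter Nat.Prime, (q : ℤ) : ℤ) : k)
      nlinarith
    refine ⟨by linarith, fun ψ₁ ψ₂ hne ↦ ?_⟩
    have h6 : ψ₁ δ - ψ₂ δ = ψ₁ (δ - c δ) := by
      rw [map_sub, embedding_eq_comp hd hc hne.symm δ]
    have h7 : ‖ψ₁ δ - ψ₂ δ‖ ^ 2 = ‖(n : k)‖ := by
      rw [h6, ← norm_pow, ← map_pow, hn, map_intCast]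
    have h8 := norm_nonneg (ψ₁ δ - ψ₂ δ)
    have h9 : ‖ψ₁ δ - ψ₂ δ‖ ≤ 1 := by nlinarith
    nlinarith

end Pool.Agent.Helper51.SigLeo
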