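import Pool.Agent.Helper51.SigLeo.Modulus

namespace Pool.Agent.Helper51.SigLeo

open NumberField Module TensorProduct

section adjoin

variable {K Ω : Type*} [Field K] [Field Ω] [Algebra K Ω]

/-- Adjoining a square root of a nonsquare gives a quadratic extension. -/
theorem finrank_adjoin_sqrt {ω : Ω} {d : K} (hω : ω ^ 2 = algebraMap K Ω d)
    (hd : ω ∉ (algebraMap K Ω).range) :
    finrank K (IntermediateField.adjoin K {ω}) = 2 := by
  have hint : IsIntegral K ω := by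
    refine IsIntegral.of_pow (n := 2) (by norm_num) ?_
    rw [hω]; exact isIntegral_algebraMap
  rw [IntermediateField.adjoin.finrank hint]
  apply le_antisymm
  · have hroot : Polynomial.aeval ω (Polynomial.X ^ 2 - Polynomial.C d) = 0 := by
      rw [map_sub, map_pow, Polynomial.aeval_X, Polynomial.aeval_C, hω, sub_self]
    have hne : (Polynomial.X ^ 2 - Polynomial.C d : Polynomial K) ≠ 0 :=
      (Polynomial.monic_X_pow_sub_C d two_ne_zero).ne_zero
    have := Polynomial.natDegree_le_of_dvd (minpoly.dvd K ω hroot) hne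
    rwa [Polynomial.natDegree_X_pow_sub_C] at this
  · exact (minpoly.two_le_natDegree_iff hint).mpr hd

end adjoin

section galaction

variable {K H : Type*} [Field K] [Field H] [Algebra K H]

theorem gal_apply_sqrt (hH : finrank K H = 2) {w : H} {d : K} (hw : w ^ 2 = algebraMap K H d)
    (hwK : w ∉ (algebraMap K H).range) (τ : H ≃ₐ[K] H) (hτ : τ ≠ 1) : τ w = -w := by
  have h1 : (τ w) ^ 2 = w ^ 2 := by rw [← map_pow, hw, AlgEquiv.commutes]
  rcases sq_eq_sq_iff_eq_or_eq_neg.mp h1 with h | h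
  · exfalso
    apply hτ
    ext y
    obtain ⟨a, b, hy⟩ := exists_coords hH hwK y
    rw [hy, map_add, map_mul, AlgEquiv.commutes, AlgEquiv.commutes, h]
    rfl
  · exact h

end galaction

/-- A unit of `𝓞 H` from an integral element with integral inverse. -/
noncomputable def mkUnit {H : Type*} [Field H] (x y : H) (hx : IsIntegral ℤ x)
    (hy : IsIntegral ℤ y) (hxy : x * y = 1) : (𝓞 H)ˣ where
  val := ⟨x, hx⟩
  inv := ⟨y, hy⟩
  val_inv := by ext; exact hxy
  inv_val := by ext; rw [mul_comm] at hxy; exact hxy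

theorem mkUnit_coe {H : Type*} [Field H] (x y : H) (hx : IsIntegral ℤ x)
    (hy : IsIntegral ℤ y) (hxy : x * y = 1) : ((mkUnit x y hx hy hxy : (𝓞 H)ˣ) : H) = x := rfl

theorem unitsMap_coe {H k : Type*} [Field H] [Field k] (ι : H →+* k) (u : (𝓞 H)ˣ) :
    ((Units.map (ι.comp (algebraMap (𝓞 H) H) : 𝓞 H →* k) u : kˣ) : k) = ι (u : H) := rfl

theorem sigmaLeopoldt_member {F K : Type*} [Field F] [NumberField F] [Field K] [NumberField K]
    [Algebra F K] [IsTotallyReal F] [IsTotallyComplex K] (hd : finrank ℚ F = 2)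
    (hKF : finrank F K = 2) (p : ℕ) [Fact p.Prime] (k : Type*) [NormedField k]
    [NormedAlgebra ℚ_[p] k] [IsUltrametricDist k] [CharZero k] {θ : K} {δ : F}
    (hθ2 : θ ^ 2 = algebraMap F K (-δ)) (hδint : IsIntegral ℤ δ)
    (η : (𝓞 F)ˣ) (κ : F) (hκ0 : κ ≠ 0) (hκη : (1 + δ) * κ = (η : F) - 1)
    (hδ1 : 1 + δ ≠ 0)
    (M : ℤ) (hκM : ∃ κ' : F, IsIntegral ℤ κ' ∧ κ = M * κ') (hM4 : ‖(M : k)‖ ≤ 1 / 4)
    (hMδ : ∀ ψ₁ ψ₂ : F →+* k, ψ₁ ≠ ψ₂ → 3 * ‖(M : k)‖ < ‖ψ₁ δ - ψ₂ δ‖)
    (ω : AlgebraicClosure K)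
    (hω : ω ^ 2 = algebraMap K (AlgebraicClosure K) (algebraMap F K (-(κ * (1 + δ * κ)))))
    (hωK : ω ∉ (algebraMap K (AlgebraicClosure K)).range) :
    SigmaLeopoldt K (IntermediateField.adjoin K {ω}) (AlgebraicClosure K) p k := by
  set H := IntermediateField.adjoin K {ω} with hHdef
  have hH : finrank K H = 2 := finrank_adjoin_sqrt hω hωK
  let g : K →+* H := algebraMap K H
  let f : F →+* H := g.comp (algebraMap F K)
  let w : H := ⟨ω, IntermediateField.mem_adjoin_simple_self K ω⟩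
  have hf : ∀ x : F, f x = algebraMap K H (algebraMap F K x) := fun x ↦ rfl
  have hw : w ^ 2 = f (-(κ * (1 + δ * κ))) := by
    apply Subtype.ext
    show ω ^ 2 = _
    rw [hω]
    rfl
  have hwK : w ∉ (algebraMap K H).range := by
    rintro ⟨x, hx⟩
    apply hωK
    refine ⟨x, ?_⟩
    have := congrArg (Subtype.val) hx
    exact this
  have hκint : IsIntegral ℤ κ := by
    obtain ⟨κ', h1, h2⟩ := hκM
    rw [h2]
    exact (isIntegral_algebraMap (R := ℤ) (A := F) (x := M)).mul h1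
  have hηint : IsIntegral ℤ (η : F) := RingOfIntegers.isIntegral_coe _
  have hηiint : IsIntegral ℤ ((η⁻¹ : (𝓞 F)ˣ) : F) := RingOfIntegers.isIntegral_coe _
  have hηη : (η : F) * ((η⁻¹ : (𝓞 F)ˣ) : F) = 1 := by
    rw [← Units.coe_mul, mul_inv_cancel, Units.coe_one]
  have hθint : IsIntegral ℤ θ := by
    refine IsIntegral.of_pow (n := 2) (by norm_num) ?_
    rw [hθ2]
    exact map_isIntegral_int _ hδint.neg
  have hwint : IsIntegral ℤ w := by
    refine IsIntegral.of_pow (n := 2) (by norm_num) ?_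
    rw [hw]
    exact map_isIntegral_int _ (hκint.mul (isIntegral_one.add (hδint.mul hκint))).neg
  have h2int : ∀ {R : Type _} [CommRing R], IsIntegral ℤ (2 : R) := by
    intro R _
    have h := isIntegral_algebraMap (R := ℤ) (A := R) (x := 2)
    rwa [map_ofNat] at h
  -- the images
  have gθ2 : (g θ) ^ 2 = - f δ := by rw [← map_pow, hθ2, ← map_neg]; rfl
  have fκη : (1 + f δ) * f κ = f (η : F) - 1 := by
    rw [← map_one f, ← map_add, ← map_mul, hκη, map_sub]
  have hw' : w ^ 2 = -(f κ * (1 + f δ * f κ)) := by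
    rw [hw, map_neg, map_mul, map_add, map_one, map_mul]
  have fηη : f (η : F) * f ((η⁻¹ : (𝓞 F)ˣ) : F) = 1 := by rw [← map_mul, hηη, map_one]
  set e : H := f (η : F) with he
  set e' : H := f ((η⁻¹ : (𝓞 F)ˣ) : F) with he'
  have hδH : IsIntegral ℤ (f δ) := map_isIntegral_int _ hδint
  have hκH : IsIntegral ℤ (f κ) := map_isIntegral_int _ hκint
  have hθH : IsIntegral ℤ (g θ) := map_isIntegral_int _ hθint
  have heH : IsIntegral ℤ e := map_isIntegral_int _ hηint
  have he'H : IsIntegral ℤ e' := map_isIntegral_int _ hηiint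
  -- the three units
  let u₀ : (𝓞 H)ˣ := mkUnit e e' heH he'H fηη
  let u₁ : (𝓞 H)ˣ := mkUnit (1 - 2 * f κ * e' + 2 * w * e') (1 - 2 * f κ * e' - 2 * w * e')
    ((isIntegral_one.sub ((h2int.mul hκH).mul he'H)).add ((h2int.mul hwint).mul he'H))
    ((isIntegral_one.sub ((h2int.mul hκH).mul he'H)).sub ((h2int.mul hwint).mul he'H))
    (by linear_combination (-4 * e' ^ 2) * hw' + (4 * f κ * e' ^ 2) * fκη +
          (4 * f κ * e') * fηη)
  let u₂ : (𝓞 H)ˣ := mkUnit (1 + 2 * f δ * f κ + 2 * g θ * w) (1 + 2 * f δ * f κ - 2 * g θ * w)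
    ((isIntegral_one.add ((h2int.mul hδH).mul hκH)).add ((h2int.mul hθH).mul hwint))
    ((isIntegral_one.add ((h2int.mul hδH).mul hκH)).sub ((h2int.mul hθH).mul hwint))
    (by linear_combination (-4 * w ^ 2) * gθ2 + (4 * f δ) * hw')
  have hu₀ : (u₀ : H) = e := rfl
  have hu₁ : (u₁ : H) = 1 - 2 * f κ * e' + 2 * w * e' := rfl
  have hu₂ : (u₂ : H) = 1 + 2 * f δ * f κ + 2 * g θ * w := rfl
  have hτf : ∀ (τ : H ≃ₐ[K] H) (x : F), τ (f x) = f x := fun τ x ↦ AlgEquiv.commutes τ _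
  have hτg : ∀ (τ : H ≃ₐ[K] H) (x : K), τ (g x) = g x := fun τ x ↦ AlgEquiv.commutes τ _
  have hτw : ∀ τ : H ≃ₐ[K] H, τ ≠ 1 → τ w = -w := fun τ hτ ↦
    gal_apply_sqrt hH (d := algebraMap F K (-(κ * (1 + δ * κ)))) hw hwK τ hτ
  -- estimates at an embedding
  have hψ : ∀ (ψ : F →+* k), ‖ψ δ‖ ≤ 1 ∧ ‖ψ κ‖ ≤ ‖(M : k)‖ := by
    intro ψ
    refine ⟨norm_map_le_one p ψ hδint, ?_⟩
    obtain ⟨κ', h1, h2⟩ := hκM
    rw [h2, map_mul, map_intCast, norm_mul]
    have h3 := norm_map_le_one p ψ h1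
    have h4 := norm_nonneg (M : k)
    nlinarith
  have hηne : (η : F) ≠ 1 := by
    intro h
    rw [h, sub_self] at hκη
    rcases mul_eq_zero.mp hκη with h5 | h5
    · exact hδ1 h5
    · exact hκ0 h5
  have : CharZero (AlgebraicClosure K) :=
    charZero_of_injective_algebraMap (algebraMap K (AlgebraicClosure K)).injective
  refine sigmaLeopoldt_of_det hd hKF p k hH u₀ u₁ u₂ ?_ ?_ ?_ ?_ ?_
  · intro τ
    rw [hu₀, he, hτf]
  · intro τ hτ
    rw [hu₁]
    simp only [map_add, map_sub, map_mul, map_one, map_ofNat, hτw τ hτ]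
    rw [he', hτf, hτf]
    linear_combination (-4 * e' ^ 2) * hw' + (4 * f κ * e' ^ 2) * fκη +
          (4 * f κ * e') * fηη
  · intro τ hτ
    rw [hu₂]
    simp only [map_add, map_mul, map_one, map_ofNat, hτw τ hτ]
    rw [hτf, hτf, hτg]
    linear_combination (-4 * w ^ 2) * gθ2 + (4 * f δ) * hw'
  · intro L ψ
    rw [logUnits_apply]
    apply log_ne_zero L
    · rw [unitsMap_coe, hu₀]
      intro h
      have : ψ e = ψ 1 := by rw [h, map_one]
      have h2 := ψ.injective this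
      rw [he, ← map_one f] at h2
      exact hηne (f.injective h2)
    · rw [unitsMap_coe, hu₀]
      have h1 : ψ e - 1 = (1 + (ψ.comp f) δ) * (ψ.comp f) κ := by
        have := congrArg ψ fκη
        simp only [map_mul, map_add, map_one, map_sub] at this
        rw [← this]
        rfl
      rw [h1, norm_mul]
      obtain ⟨h3, h4⟩ := hψ (ψ.comp f)
      have h5 : ‖1 + (ψ.comp f) δ‖ ≤ 1 :=
        (norm_add_le_max' _ _).trans (max_le (by rw [norm_one]) h3)
      have h6 := norm_nonneg ((ψ.comp f) κ)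
      nlinarith
  · intro L ψ₁ ψ₂ hne
    rw [logUnits_apply, logUnits_apply, logUnits_apply, logUnits_apply]
    have hne' : ψ₁.comp f ≠ ψ₂.comp f := hne
    have hloc : ∀ ψ : H →+* k, (ψ (g θ)) ^ 2 = -((ψ.comp f) δ) ∧
        (1 + (ψ.comp f) δ) * (ψ.comp f) κ = ψ e - 1 ∧
        (ψ w) ^ 2 = -((ψ.comp f) κ * (1 + (ψ.comp f) δ * (ψ.comp f) κ)) ∧
        (ψ.comp f) κ ≠ 0 ∧
        ((Units.map (ψ.comp (algebraMap (𝓞 H) H) : 𝓞 H →* k) u₁ : kˣ) : k) * ψ e = ψ e - 2 * (ψ.comp f) κ + 2 * ψ w ∧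
        ((Units.map (ψ.comp (algebraMap (𝓞 H) H) : 𝓞 H →* k) u₂ : kˣ) : k) = 1 + 2 * (ψ.comp f) δ * (ψ.comp f) κ + 2 * ψ (g θ) * ψ w := by
      intro ψ
      refine ⟨?_, ?_, ?_, ?_, ?_, ?_⟩
      · have := congrArg ψ gθ2
        rw [map_pow, map_neg] at this
        exact this
      · have := congrArg ψ fκη
        simp only [map_mul, map_add, map_one, map_sub] at this
        exact this
      · have := congrArg ψ hw'
        simp only [map_mul, map_add, map_one, map_pow, map_neg] at this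
        exact this
      · intro h
        rw [map_eq_zero] at h
        exact hκ0 h
      · rw [unitsMap_coe, hu₁]
        have h7 : ψ e * ψ e' = 1 := by rw [← map_mul, fηη, map_one]
        simp only [map_mul, map_add, map_one, map_sub, map_ofNat, RingHom.comp_apply]
        linear_combination (-2 * ψ (f κ) + 2 * ψ w) * h7
      · rw [unitsMap_coe, hu₂]
        simp only [map_mul, map_add, map_one, map_ofNat, RingHom.comp_apply]
    obtain ⟨a1, a2, a3, a4, a5, a6⟩ := hloc ψ₁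
    obtain ⟨b1, b2, b3, b4, b5, b6⟩ := hloc ψ₂
    exact det_ne_zero L a1 a2 a3 a4 (hψ _).1 (hψ _).2 a5 a6 b1 b2 b3 b4 (hψ _).1 (hψ _).2 b5 b6
      hM4 (hMδ _ _ hne')

end Pool.Agent.Helper51.SigLeo
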