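import Pool.Agent.Helper51.SigLeo.Defs

namespace Pool.Agent.Helper51.SigLeo

open NumberField Module TensorProduct

section linear

/-- The linear algebra behind the dimension count. -/
theorem linear_core {k V : Type*} [Field k] [AddCommGroup V] [Module k V]
    [FiniteDimensional k V] (hV : finrank k V ≤ 3) (W : Submodule k V) (e : V) (he : e ∉ W)
    (w₁ w₂ : V) (h₁ : w₁ ∈ W) (h₂ : w₂ ∈ W) (l₁ l₂ : V →ₗ[k] k)
    (hdet : l₁ w₁ * l₂ w₂ - l₂ w₁ * l₁ w₂ ≠ 0) (x : V) (hx : x ∈ W) (hx1 : l₁ x = 0)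
    (hx2 : l₂ x = 0) : x = 0 := by
  -- the span of `e, w₁, w₂, x`
  by_contra hx0
  have hli : LinearIndependent k ![w₁, w₂, x, e] := by
    rw [Fintype.linearIndependent_iff]
    intro g hg
    simp only [Fin.sum_univ_four, Matrix.cons_val_zero, Matrix.cons_val_one,
      Matrix.cons_val] at hg
    have h3 : g 3 = 0 := by
      by_contra h3
      apply he
      have : e = (g 3)⁻¹ • (-(g 0 • w₁ + g 1 • w₂ + g 2 • x)) := by
        rw [eq_inv_smul_iff₀ h3]
        rw [eq_neg_iff_add_eq_zero, add_comm]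
        exact hg
      rw [this]
      exact W.smul_mem _ (W.neg_mem (W.add_mem (W.add_mem (W.smul_mem _ h₁) (W.smul_mem _ h₂))
        (W.smul_mem _ hx)))
    rw [h3, zero_smul, add_zero] at hg
    have e1 := congrArg l₁ hg
    have e2 := congrArg l₂ hg
    simp only [map_add, map_smul, hx1, hx2, map_zero, smul_eq_mul] at e1 e2
    have h0 : g 0 * (l₁ w₁ * l₂ w₂ - l₂ w₁ * l₁ w₂) = 0 := by
      linear_combination l₂ w₂ * e1 - l₁ w₂ * e2
    have h1 : g 1 * (l₁ w₁ * l₂ w₂ - l₂ w₁ * l₁ w₂) = 0 := by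
      linear_combination l₁ w₁ * e2 - l₂ w₁ * e1
    have h0' : g 0 = 0 := by
      rcases mul_eq_zero.mp h0 with h | h
      · exact h
      · exact absurd h hdet
    have h1' : g 1 = 0 := by
      rcases mul_eq_zero.mp h1 with h | h
      · exact h
      · exact absurd h hdet
    rw [h0', h1', zero_smul, zero_smul, zero_add, zero_add] at hg
    have h2' : g 2 = 0 := by
      rcases smul_eq_zero.mp hg with h | h
      · exact h
      · exact absurd h hx0
    intro i
    fin_cases i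
    · exact h0'
    · exact h1'
    · exact h2'
    · exact h3
  have := hli.fintype_card_le_finrank
  simp at this
  omega

end linear

section quad

variable {K H : Type*} [Field K] [Field H] [Algebra K H]

@[simp]
theorem unitsHom_apply (τ : H ≃ₐ[K] H) (u : Additive (𝓞 H)ˣ) :
    (((unitsHom τ u).toMul : (𝓞 H)ˣ) : H) = τ ((u.toMul : (𝓞 H)ˣ) : H) := rfl

theorem unitsHom_one : unitsHom (1 : H ≃ₐ[K] H) = AddMonoidHom.id _ := by
  ext u
  rfl

theorem unitsHom_mul (σ τ : H ≃ₐ[K] H) : unitsHom (σ * τ) = (unitsHom σ).comp (unitsHom τ) := by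
  ext u
  rfl

variable {k M : Type*} [Field k] [AddCommGroup M]

@[simp]
theorem extEnd_tmul (f : M →+ M) (c : k) (m : M) :
    (extEnd f : (k ⊗[ℤ] M) →ₗ[k] (k ⊗[ℤ] M)) (c ⊗ₜ m) = c ⊗ₜ f m := by
  simp [extEnd]

@[simp]
theorem extHom_tmul (f : M →+ k) (c : k) (m : M) :
    extHom f (c ⊗ₜ[ℤ] m) = c * f m := by
  simp [extHom]

theorem extEnd_id (x : k ⊗[ℤ] M) : extEnd (AddMonoidHom.id M) x = x := by
  induction x using TensorProduct.induction_on with
  | zero => simp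
  | tmul c m => simp
  | add x y hx hy => rw [map_add, hx, hy]

theorem extEnd_comp (f g : M →+ M) (x : k ⊗[ℤ] M) :
    extEnd (f.comp g) x = extEnd f (extEnd g x) := by
  induction x using TensorProduct.induction_on with
  | zero => simp
  | tmul c m => simp
  | add x y hx hy => rw [map_add, hx, hy, map_add, map_add]

theorem logUnits_apply {p : ℕ} {k : Type*} [NormedField k] (L : IwasawaLog p k) (ι : H →+* k)
    (u : (𝓞 H)ˣ) : logUnits L ι (Additive.ofMul u) =
      L.toFun (Units.map (ι.comp (algebraMap (𝓞 H) H)) u) := rfl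

end quad

section rank

/-- `k ⊗ (𝓞_H)ˣ` is spanned by the fundamental units. -/
theorem span_fundSystem (H : Type*) [Field H] [NumberField H] (k : Type*) [Field k] [CharZero k] :
    Submodule.span k (Set.range fun i : Fin (Units.rank H) ↦
      ((1 : k) ⊗ₜ[ℤ] Additive.ofMul (Units.fundSystem H i) : k ⊗[ℤ] Additive (𝓞 H)ˣ)) = ⊤ := by
  rw [eq_top_iff]
  rintro x -
  induction x using TensorProduct.induction_on with
  | zero => exact Submodule.zero_mem _
  | add x y hx hy => exact Submodule.add_mem _ hx hy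
  | tmul c u =>
    obtain ⟨⟨ζ, e⟩, h, -⟩ := Units.exist_unique_eq_mul_prod H u.toMul
    have hu : u = Additive.ofMul (ζ : (𝓞 H)ˣ) +
        ∑ i, e i • Additive.ofMul (Units.fundSystem H i) := by
      apply Additive.toMul.injective
      rw [h]
      simp [toMul_add, toMul_sum, toMul_zsmul]
    have hζ : (c ⊗ₜ[ℤ] Additive.ofMul (ζ : (𝓞 H)ˣ) : k ⊗[ℤ] Additive (𝓞 H)ˣ) = 0 := by
      have hn : (Units.torsionOrder H : k) ≠ 0 := by
        exact_mod_cast (Units.torsionOrder_pos H).ne'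
      have hz : (Units.torsionOrder H : ℤ) • Additive.ofMul (ζ : (𝓞 H)ˣ) = 0 := by
        apply Additive.toMul.injective
        rw [toMul_zsmul]
        have : (ζ : (𝓞 H)ˣ) ^ (Units.torsionOrder H) = 1 := by
          have := (Units.rootsOfUnity_eq_torsion H)
          have h2 : (ζ : (𝓞 H)ˣ) ∈ rootsOfUnity (Units.torsionOrder H) (𝓞 H) := by
            rw [this]; exact ζ.2
          exact h2
        simpa using this
      have : (Units.torsionOrder H : k) • (c ⊗ₜ[ℤ] Additive.ofMul (ζ : (𝓞 H)ˣ) :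
          k ⊗[ℤ] Additive (𝓞 H)ˣ) = 0 := by
        rw [Nat.cast_smul_eq_nsmul, ← natCast_zsmul, ← TensorProduct.tmul_smul, hz,
          TensorProduct.tmul_zero]
      exact (smul_eq_zero.mp this).resolve_left hn
    rw [hu, TensorProduct.tmul_add, hζ, zero_add, TensorProduct.tmul_sum]
    refine Submodule.sum_mem _ fun i _ ↦ ?_
    have : (c ⊗ₜ[ℤ] (e i • Additive.ofMul (Units.fundSystem H i)) : k ⊗[ℤ] Additive (𝓞 H)ˣ) =
        (c * (e i : k)) • ((1 : k) ⊗ₜ[ℤ] Additive.ofMul (Units.fundSystem H i)) := by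
      have h1 := map_zsmul (TensorProduct.mk ℤ k (Additive (𝓞 H)ˣ) c) (e i)
        (Additive.ofMul (Units.fundSystem H i))
      rw [TensorProduct.mk_apply, TensorProduct.mk_apply] at h1
      rw [h1, TensorProduct.smul_tmul', TensorProduct.smul_tmul', smul_eq_mul,
        mul_one, zsmul_eq_mul, mul_comm]
    rw [this]
    exact Submodule.smul_mem _ _ (Submodule.subset_span ⟨i, rfl⟩)

theorem finite_tensor (H : Type*) [Field H] [NumberField H] (k : Type*) [Field k] [CharZero k] :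
    FiniteDimensional k (k ⊗[ℤ] Additive (𝓞 H)ˣ) :=
  ⟨⟨(Set.finite_range _).toFinset, by
    rw [Set.Finite.coe_toFinset]; exact span_fundSystem H k⟩⟩

theorem finrank_tensor_le (H : Type*) [Field H] [NumberField H] (k : Type*) [Field k]
    [CharZero k] : finrank k (k ⊗[ℤ] Additive (𝓞 H)ˣ) ≤ Units.rank H := by
  have := finrank_le_of_span_eq_top (span_fundSystem H k)
  simpa using this

end rank

section quadratic

variable {K H : Type*} [Field K] [CharZero K] [Field H] [Algebra K H]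

theorem gal_two (h : finrank K H = 2) (τ : H ≃ₐ[K] H) (hτ : τ ≠ 1) (σ : H ≃ₐ[K] H) :
    σ = 1 ∨ σ = τ := by
  have : FiniteDimensional K H := FiniteDimensional.of_finrank_pos (by omega)
  have : Algebra.IsQuadraticExtension K H := ⟨h⟩
  have hc : Nat.card (H ≃ₐ[K] H) = 2 := by rw [IsGalois.card_aut_eq_finrank, h]
  obtain ⟨y, hy, huniq⟩ := (Nat.card_eq_two_iff' (1 : H ≃ₐ[K] H)).mp hc
  by_cases hσ : σ = 1
  · exact Or.inl hσ
  · right
    rw [huniq σ hσ, huniq τ hτ]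

theorem exists_gal (h : finrank K H = 2) : ∃ τ : H ≃ₐ[K] H, τ ≠ 1 := by
  have : FiniteDimensional K H := FiniteDimensional.of_finrank_pos (by omega)
  have : Algebra.IsQuadraticExtension K H := ⟨h⟩
  have hc : Nat.card (H ≃ₐ[K] H) = 2 := by rw [IsGalois.card_aut_eq_finrank, h]
  obtain ⟨y, hy, huniq⟩ := (Nat.card_eq_two_iff' (1 : H ≃ₐ[K] H)).mp hc
  exact ⟨y, hy⟩

theorem tau_mul_tau (h : finrank K H = 2) (τ : H ≃ₐ[K] H) (hτ : τ ≠ 1) : τ * τ = 1 := by
  rcases gal_two h τ hτ (τ * τ) with h1 | h1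
  · exact h1
  · exact absurd (mul_eq_left.mp h1) hτ

variable {k : Type*} [Field k] [CharZero k]

omit [CharZero k] in
theorem chi_tau (h : finrank K H = 2) (τ : H ≃ₐ[K] H) (hτ : τ ≠ 1)
    (χ : (H ≃ₐ[K] H) →* kˣ) (hχ : Function.Injective χ) : ((χ τ : kˣ) : k) = -1 := by
  have h1 : χ τ * χ τ = 1 := by rw [← map_mul, tau_mul_tau h τ hτ, map_one]
  have h2 : χ τ ≠ 1 := fun h2 ↦ hτ (hχ (by rw [h2, map_one]))
  have h3 : ((χ τ : kˣ) : k) * ((χ τ : kˣ) : k) = 1 := by
    rw [← Units.val_mul, h1, Units.val_one]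
  rcases mul_self_eq_one_iff.mp h3 with h4 | h4
  · exact absurd (Units.ext (by rw [h4, Units.val_one])) h2
  · exact h4

omit [CharZero k] in
theorem eChi_apply (h : finrank K H = 2) (τ : H ≃ₐ[K] H) (hτ : τ ≠ 1)
    (χ : (H ≃ₐ[K] H) →* kˣ) (hχ : Function.Injective χ)
    (x : k ⊗[ℤ] Additive (𝓞 H)ˣ) :
    eChi (finrank K H) χ unitsHom x = (2 : k)⁻¹ • (x - extEnd (unitsHom τ) x) := by
  have hτi : τ⁻¹ = τ := inv_eq_of_mul_eq_one_left (tau_mul_tau h τ hτ)
  have hsup : (∑ᶠ σ : H ≃ₐ[K] H, ((χ σ⁻¹ : kˣ) : k) • extEnd (unitsHom σ) x) =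
      x - extEnd (unitsHom τ) x := by
    classical
    rw [finsum_eq_sum_of_support_subset (s := {1, τ})]
    · rw [Finset.sum_pair hτ.symm, inv_one, map_one, Units.val_one, one_smul, unitsHom_one,
        extEnd_id, hτi, chi_tau h τ hτ χ hχ, neg_smul, one_smul, sub_eq_add_neg]
    · intro σ _
      rcases gal_two h τ hτ σ with h1 | h1 <;> simp [h1]
  rw [eChi, hsup, h]
  simp

omit [CharZero k] in
theorem extEnd_tau_tau (h : finrank K H = 2) (τ : H ≃ₐ[K] H) (hτ : τ ≠ 1)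
    (x : k ⊗[ℤ] Additive (𝓞 H)ˣ) :
    extEnd (unitsHom τ) (extEnd (unitsHom τ) x) = x := by
  rw [← extEnd_comp, ← unitsHom_mul, tau_mul_tau h τ hτ, unitsHom_one, extEnd_id]

omit [CharZero k] in
theorem extEnd_eChi (h : finrank K H = 2) (τ : H ≃ₐ[K] H) (hτ : τ ≠ 1)
    (χ : (H ≃ₐ[K] H) →* kˣ) (hχ : Function.Injective χ) (x : k ⊗[ℤ] Additive (𝓞 H)ˣ) :
    extEnd (unitsHom τ) (eChi (finrank K H) χ unitsHom x) =
      -eChi (finrank K H) χ unitsHom x := by
  rw [eChi_apply h τ hτ χ hχ, map_smul, map_sub, extEnd_tau_tau h τ hτ, ← smul_neg, neg_sub]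

/-- The `-1`-eigenspace of `τ` on `k ⊗ (𝓞_H)ˣ`. -/
noncomputable def minusPart (k : Type*) [Field k] (τ : H ≃ₐ[K] H) :
    Submodule k (k ⊗[ℤ] Additive (𝓞 H)ˣ) :=
  LinearMap.ker ((extEnd (unitsHom τ) : (k ⊗[ℤ] Additive (𝓞 H)ˣ) →ₗ[k] _) + LinearMap.id)

omit [CharZero K] [CharZero k] in
theorem mem_minusPart (τ : H ≃ₐ[K] H) (x : k ⊗[ℤ] Additive (𝓞 H)ˣ) :
    x ∈ minusPart k τ ↔ extEnd (unitsHom τ) x = -x := by
  rw [minusPart, LinearMap.mem_ker, LinearMap.add_apply, LinearMap.id_apply,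
    eq_neg_iff_add_eq_zero]

omit [CharZero K] [CharZero k] in
theorem tmul_mem_minusPart (τ : H ≃ₐ[K] H) (u : (𝓞 H)ˣ) (hu : (u : H) * τ (u : H) = 1) :
    (1 : k) ⊗ₜ[ℤ] Additive.ofMul u ∈ minusPart k τ := by
  rw [mem_minusPart, extEnd_tmul]
  have : unitsHom τ (Additive.ofMul u) = -Additive.ofMul u := by
    apply Additive.toMul.injective
    apply Units.coe_injective
    rw [toMul_neg, toMul_ofMul]
    show τ (u : H) = ((u⁻¹ : (𝓞 H)ˣ) : H)
    apply mul_left_cancel₀ (Units.coe_ne_zero u)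
    rw [hu, ← Units.coe_mul, mul_inv_cancel, Units.coe_one]
  rw [this, TensorProduct.tmul_neg]

/-- **Core criterion.** Two relative units of relative norm `1` with nonvanishing regulator
determinant, and one unit of the base with nonvanishing logarithm, give the injectivity of the
logarithm map on the `χ`-part, when the unit rank of `H` is `3`. -/
theorem core [NumberField H] (h : finrank K H = 2) (hrank : Units.rank H = 3)
    (τ : H ≃ₐ[K] H) (hτ : τ ≠ 1)
    (χ : (H ≃ₐ[K] H) →* kˣ) (hχ : Function.Injective χ)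
    (T : Set (Additive (𝓞 H)ˣ →+ k)) (ℓ₁ ℓ₂ : Additive (𝓞 H)ˣ →+ k) (hℓ₁ : ℓ₁ ∈ T) (hℓ₂ : ℓ₂ ∈ T)
    (η u₁ u₂ : (𝓞 H)ˣ) (hη : τ (η : H) = η)
    (h₁ : (u₁ : H) * τ (u₁ : H) = 1) (h₂ : (u₂ : H) * τ (u₂ : H) = 1)
    (hLη : ℓ₁ (Additive.ofMul η) ≠ 0)
    (hdet : ℓ₁ (Additive.ofMul u₁) * ℓ₂ (Additive.ofMul u₂) -
      ℓ₂ (Additive.ofMul u₁) * ℓ₁ (Additive.ofMul u₂) ≠ 0) :
    InjectiveOn (finrank K H) χ unitsHom T := by
  have := finite_tensor H k
  intro x hx
  refine linear_core (by rw [← hrank]; exact finrank_tensor_le H k)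
    (minusPart k τ) (1 ⊗ₜ Additive.ofMul η) ?_ _ _
    (tmul_mem_minusPart τ u₁ h₁) (tmul_mem_minusPart τ u₂ h₂)
    (extHom ℓ₁) (extHom ℓ₂) ?_ _ ?_ (hx ℓ₁ hℓ₁) (hx ℓ₂ hℓ₂)
  · intro hmem
    rw [mem_minusPart, extEnd_tmul] at hmem
    have h3 : unitsHom τ (Additive.ofMul η) = Additive.ofMul η := by
      apply Additive.toMul.injective
      apply Units.coe_injective
      exact hη
    rw [h3] at hmem
    have h0 : (1 : k) ⊗ₜ[ℤ] Additive.ofMul η = 0 := by
      have h2 : (2 : k) • ((1 : k) ⊗ₜ[ℤ] Additive.ofMul η) = 0 := by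
        rw [two_smul]
        exact eq_neg_iff_add_eq_zero.mp hmem
      exact (smul_eq_zero.mp h2).resolve_left two_ne_zero
    apply hLη
    have h4 := extHom_tmul ℓ₁ (1 : k) (Additive.ofMul η)
    rw [h0, map_zero, one_mul] at h4
    exact h4.symm
  · rw [extHom_tmul, extHom_tmul, extHom_tmul, extHom_tmul, one_mul, one_mul, one_mul, one_mul]
    exact hdet
  · rw [mem_minusPart]
    exact extEnd_eChi h τ hτ χ hχ x

end quadratic

end Pool.Agent.Helper51.SigLeo
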