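import Pool.Agent.Helper51.SigLeo.Core

namespace Pool.Agent.Helper51.SigLeo

open NumberField Module TensorProduct

section embeddings

/-- A quadratic number field has two distinct embeddings in any algebraically closed field of
characteristic zero. -/
theorem exists_two_embeddings (F A : Type*) [Field F] [NumberField F] [Field A] [CharZero A]
    [IsAlgClosed A] (hd : finrank ℚ F = 2) : ∃ s₁ s₂ : F →+* A, s₁ ≠ s₂ := by
  have h := NumberField.Embeddings.card F A
  rw [hd] at h
  have : Nontrivial (F →+* A) := by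
    rw [← Fintype.one_lt_card_iff_nontrivial]
    omega
  exact exists_pair_ne _

/-- Composition with an embedding of algebraically closed fields is surjective on embeddings of a
number field. -/
theorem exists_lift_embedding {K A B : Type*} [Field K] [NumberField K] [Field A] [CharZero A]
    [IsAlgClosed A] [Field B] [CharZero B] [IsAlgClosed B] (ι : A →+* B) (φ : K →+* B) :
    ∃ σ : K →+* A, ι.comp σ = φ := by
  have hinj : Function.Injective (fun σ : K →+* A ↦ ι.comp σ) := by
    intro σ τ h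
    ext x
    apply ι.injective
    exact RingHom.congr_fun h x
  have hcard : Fintype.card (K →+* A) = Fintype.card (K →+* B) := by
    rw [NumberField.Embeddings.card, NumberField.Embeddings.card]
  have hbij := (Fintype.bijective_iff_injective_and_card (fun σ : K →+* A ↦ ι.comp σ)).mpr
    ⟨hinj, hcard⟩
  exact hbij.2 φ

/-- Extension of embeddings along an algebraic extension. -/
theorem exists_extend_embedding {K H A : Type*} [Field K] [Field H] [Algebra K H]
    [Algebra.IsAlgebraic K H] [Field A] [IsAlgClosed A] (φ : K →+* A) :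
    ∃ σ : H →+* A, σ.comp (algebraMap K H) = φ := by
  let := φ.toAlgebra
  refine ⟨(IsAlgClosed.lift (R := K) (S := H) (M := A)).toRingHom, ?_⟩
  ext x
  exact (IsAlgClosed.lift (R := K) (S := H) (M := A)).commutes x

/-- A CM type of `K` contains an extension of every embedding of a totally real subfield. -/
theorem IsCMType.exists_mem {F K : Type*} [Field F] [NumberField F] [Field K] [NumberField K]
    [Algebra F K] [IsTotallyReal F] {S : Set (K →+* ℂ)} (hS : IsCMType S) (s : F →+* ℂ) :
    ∃ φ ∈ S, φ.comp (algebraMap F K) = s := by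
  have hφ := ComplexEmbedding.lift_comp_algebraMap K s
  by_cases h : ComplexEmbedding.lift K s ∈ S
  · exact ⟨_, h, hφ⟩
  · refine ⟨ComplexEmbedding.conjugate (ComplexEmbedding.lift K s), ?_, ?_⟩
    · by_contra h2
      exact h ((hS _).mpr h2)
    · rw [ComplexEmbedding.conjugate_comp, hφ]
      exact ComplexEmbedding.isReal_iff.mp (IsTotallyReal.complexEmbedding_isReal s)

end embeddings

/-- The unit rank of a totally complex field of degree `8` is `3`. -/
theorem rank_eq_three (H : Type*) [Field H] [NumberField H] [IsTotallyComplex H]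
    (h8 : finrank ℚ H = 8) : Units.rank H = 3 := by
  have h1 := IsTotallyComplex.finrank (K := H)
  have h2 : Fintype.card (InfinitePlace H) =
      InfinitePlace.nrRealPlaces H + InfinitePlace.nrComplexPlaces H := by
    classical
    exact InfinitePlace.card_eq_nrRealPlaces_add_nrComplexPlaces H
  rw [IsTotallyComplex.nrRealPlaces_eq_zero] at h2
  unfold Units.rank
  omega

/-- **Criterion**: `F` real quadratic, `K/F` totally imaginary quadratic, `H/K` quadratic; units
`η, u₁, u₂` of `H`, with `η` fixed by `Gal(H/K)` and `u₁, u₂` of relative norm `1`; if `log η ≠ 0`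
and all the relevant `2 × 2` determinants are nonzero, then the `Σ`-Leopoldt conjecture holds. -/
theorem sigmaLeopoldt_of_det {F K H Ω : Type*} [Field F] [NumberField F] [Field K] [NumberField K]
    [Algebra F K] [IsTotallyReal F] (hd : finrank ℚ F = 2) [IsTotallyComplex K]
    (hKF : finrank F K = 2) [Field H] [Algebra K H] [Field Ω] [CharZero Ω] [IsAlgClosed Ω]
    (p : ℕ) (k : Type*) [NormedField k] [CharZero k]
    (hH : finrank K H = 2) (η u₁ u₂ : (𝓞 H)ˣ)
    (hη : ∀ τ : H ≃ₐ[K] H, τ (η : H) = η)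
    (h₁ : ∀ τ : H ≃ₐ[K] H, τ ≠ 1 → (u₁ : H) * τ (u₁ : H) = 1)
    (h₂ : ∀ τ : H ≃ₐ[K] H, τ ≠ 1 → (u₂ : H) * τ (u₂ : H) = 1)
    (hLη : ∀ (L : IwasawaLog p k) (ψ : H →+* k), logUnits L ψ (Additive.ofMul η) ≠ 0)
    (hdet : ∀ (L : IwasawaLog p k) (ψ₁ ψ₂ : H →+* k),
      (ψ₁.comp (algebraMap K H)).comp (algebraMap F K) ≠
        (ψ₂.comp (algebraMap K H)).comp (algebraMap F K) →
      logUnits L ψ₁ (Additive.ofMul u₁) * logUnits L ψ₂ (Additive.ofMul u₂) -
        logUnits L ψ₂ (Additive.ofMul u₁) * logUnits L ψ₁ (Additive.ofMul u₂) ≠ 0) :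
    SigmaLeopoldt K H Ω p k := by
  have hfin : FiniteDimensional K H := FiniteDimensional.of_finrank_pos (by omega)
  have hNF : NumberField H := NumberField.of_module_finite K H
  have hTC : IsTotallyComplex H := isTotallyComplex_of_algebra K H
  have hKF' : FiniteDimensional F K := FiniteDimensional.of_finrank_pos (by omega)
  have h8 : finrank ℚ H = 8 := by
    rw [← finrank_mul_finrank ℚ K H, ← finrank_mul_finrank ℚ F K, hd, hKF, hH]
  obtain ⟨τ, hτ⟩ := exists_gal hH
  intro ιinf ιp S χ L hS hχ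
  obtain ⟨s₁, s₂, hs⟩ := exists_two_embeddings F ℂ hd
  obtain ⟨φ₁, hφ₁S, hφ₁⟩ := hS.exists_mem s₁
  obtain ⟨φ₂, hφ₂S, hφ₂⟩ := hS.exists_mem s₂
  obtain ⟨κ₁, hκ₁⟩ := exists_lift_embedding ιinf φ₁
  obtain ⟨κ₂, hκ₂⟩ := exists_lift_embedding ιinf φ₂
  obtain ⟨σ₁, hσ₁⟩ := exists_extend_embedding (H := H) κ₁
  obtain ⟨σ₂, hσ₂⟩ := exists_extend_embedding (H := H) κ₂
  have hne : ((ιp.comp σ₁).comp (algebraMap K H)).comp (algebraMap F K) ≠
      ((ιp.comp σ₂).comp (algebraMap K H)).comp (algebraMap F K) := by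
    intro h
    apply hs
    rw [← hφ₁, ← hφ₂, ← hκ₁, ← hκ₂, ← hσ₁, ← hσ₂]
    ext y
    have := RingHom.congr_fun h y
    simp only [RingHom.comp_apply] at this ⊢
    rw [ιp.injective this]
  exact core hH (rank_eq_three H h8) τ hτ χ hχ (logSigma ιinf ιp S L)
    (logUnits L (ιp.comp σ₁)) (logUnits L (ιp.comp σ₂))
    ⟨σ₁, by rw [hσ₁, hκ₁]; exact hφ₁S, rfl⟩ ⟨σ₂, by rw [hσ₂, hκ₂]; exact hφ₂S, rfl⟩
    η u₁ u₂ (hη τ) (h₁ τ hτ) (h₂ τ hτ) (hLη L _) (hdet L _ _ hne)

end Pool.Agent.Helper51.SigLeo
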