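import Pool.Agent.Helper51.SigLeo.Bridge

namespace Pool.Agent.Helper51.SigLeo

open NumberField Module

section quadgen

variable {F K : Type*} [Field F] [Field K] [Algebra F K]

/-- In a quadratic extension, `1` and any element outside the base form a basis. -/
theorem exists_coords (h : finrank F K = 2) {x : K} (hx : x ∉ (algebraMap F K).range) (y : K) :
    ∃ a b : F, y = algebraMap F K a + algebraMap F K b * x := by
  have hli : LinearIndependent F ![(1 : K), x] := by
    rw [LinearIndependent.pair_iff]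
    intro s t hst
    have ht : t = 0 := by
      by_contra ht
      apply hx
      refine ⟨-s / t, ?_⟩
      have ht' : algebraMap F K t ≠ 0 := by
        rwa [Ne, FaithfulSMul.algebraMap_eq_zero_iff]
      rw [map_div₀, map_neg, div_eq_iff ht']
      rw [Algebra.smul_def, Algebra.smul_def, mul_one] at hst
      linear_combination -hst
    refine ⟨?_, ht⟩
    rw [ht, zero_smul, add_zero, Algebra.smul_def, mul_one] at hst
    rwa [FaithfulSMul.algebraMap_eq_zero_iff] at hst
  have hspan := hli.span_eq_top_of_card_eq_finrank (by simp [h])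
  have hy : y ∈ Submodule.span F (Set.range ![(1 : K), x]) := by rw [hspan]; trivial
  rw [Matrix.range_cons, Matrix.range_cons, Matrix.range_empty, Set.union_empty] at hy
  obtain ⟨a, b, hab⟩ := Submodule.mem_span_pair.mp hy
  refine ⟨a, b, ?_⟩
  rw [← hab, Algebra.smul_def, Algebra.smul_def, mul_one]

theorem exists_not_mem (h : finrank F K = 2) : ∃ x : K, x ∉ (algebraMap F K).range := by
  by_contra hcon
  push Not at hcon
  have hbij : Function.Bijective (algebraMap F K) := ⟨(algebraMap F K).injective, hcon⟩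
  have : finrank F K = 1 := by
    have e : F ≃ₐ[F] K := AlgEquiv.ofBijective (Algebra.ofId F K) hbij
    rw [← e.toLinearEquiv.finrank_eq, finrank_self]
  omega

/-- An element of a quadratic extension whose square is in the base. -/
theorem exists_sqrt [CharZero F] (h : finrank F K = 2) : ∃ (θ : K) (d : F),
    θ ∉ (algebraMap F K).range ∧ θ ^ 2 = algebraMap F K d := by
  obtain ⟨x, hx⟩ := exists_not_mem h
  obtain ⟨a, b, hab⟩ := exists_coords h hx (x ^ 2)
  refine ⟨2 * x - algebraMap F K b, 4 * a + b ^ 2, ?_, ?_⟩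
  · rintro ⟨y, hy⟩
    apply hx
    have hK : CharZero K := charZero_of_injective_algebraMap (algebraMap F K).injective
    refine ⟨(y + b) / 2, ?_⟩
    rw [map_div₀, map_add, hy, map_ofNat]
    field_simp
    ring
  · rw [map_add, map_mul, map_pow, map_ofNat]
    linear_combination 4 * hab

/-- Square roots of elements of the base in a quadratic extension `F(θ)`. -/
theorem sq_in_base [CharZero F] (h : finrank F K = 2) {θ : K} {d : F}
    (hθ : θ ∉ (algebraMap F K).range) (hθ2 : θ ^ 2 = algebraMap F K d) {x : K} {e : F}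
    (hx : x ^ 2 = algebraMap F K e) :
    ∃ y : F, (x = algebraMap F K y ∧ e = y ^ 2) ∨ (x = algebraMap F K y * θ ∧ e = y ^ 2 * d) := by
  have hK : CharZero K := charZero_of_injective_algebraMap (algebraMap F K).injective
  obtain ⟨a, b, hab⟩ := exists_coords h hθ x
  have key : algebraMap F K (e - a ^ 2 - b ^ 2 * d) = algebraMap F K (2 * a * b) * θ := by
    rw [hab] at hx
    simp only [map_sub, map_mul, map_pow, map_ofNat]
    linear_combination -hx + (algebraMap F K b) ^ 2 * hθ2
  have hab0 : 2 * a * b = 0 := by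
    by_contra hne
    apply hθ
    refine ⟨(e - a ^ 2 - b ^ 2 * d) / (2 * a * b), ?_⟩
    have hne' : algebraMap F K (2 * a * b) ≠ 0 := by
      rwa [Ne, FaithfulSMul.algebraMap_eq_zero_iff]
    rw [map_div₀, div_eq_iff hne', key, mul_comm]
  rw [hab0, map_zero, zero_mul, FaithfulSMul.algebraMap_eq_zero_iff] at key
  rcases mul_eq_zero.mp hab0 with h1 | h1
  · have ha : a = 0 := by
      rcases mul_eq_zero.mp h1 with h2 | h2
      · exact absurd h2 two_ne_zero
      · exact h2
    refine ⟨b, Or.inr ⟨?_, ?_⟩⟩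
    · rw [hab, ha, map_zero, zero_add]
    · rw [ha] at key
      linear_combination key
  · refine ⟨a, Or.inl ⟨?_, ?_⟩⟩
    · rw [hab, h1, map_zero, zero_mul, add_zero]
    · rw [h1] at key
      linear_combination key

end quadgen

section conj

variable {F : Type*} [Field F] [CharZero F] (hd : finrank ℚ F = 2)

include hd

/-- The nontrivial automorphism fixes only rational numbers. -/
theorem fixed_rat {c : F ≃ₐ[ℚ] F} (hc : c ≠ 1) {y : F} (hy : c y = y) :
    y ∈ (algebraMap ℚ F).range := by
  obtain ⟨x, hx⟩ := exists_not_mem hd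
  obtain ⟨a, b, hab⟩ := exists_coords hd hx y
  have hcx : c x ≠ x := by
    intro hcx
    apply hc
    ext z
    obtain ⟨a', b', hz⟩ := exists_coords hd hx z
    rw [hz, map_add, map_mul, AlgEquiv.commutes, AlgEquiv.commutes, hcx]
    rfl
  rw [hab, map_add, map_mul, AlgEquiv.commutes, AlgEquiv.commutes, add_right_inj] at hy
  have hb : algebraMap ℚ F b = 0 := by
    by_contra hb
    exact hcx (mul_left_cancel₀ hb hy)
  exact ⟨a, by rw [hab, hb, zero_mul, add_zero]⟩

/-- Two distinct embeddings of a quadratic field are conjugate. -/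
theorem embedding_eq_comp {A : Type*} [Field A] [CharZero A] {c : F ≃ₐ[ℚ] F} (hc : c ≠ 1)
    {ψ₁ ψ₂ : F →+* A} (hne : ψ₂ ≠ ψ₁) (y : F) : ψ₂ y = ψ₁ (c y) := by
  obtain ⟨x, hx⟩ := exists_not_mem hd
  have hcc : c * c = 1 := tau_mul_tau hd c hc
  have hccx : ∀ z, c (c z) = z := fun z ↦ by
    have := AlgEquiv.congr_fun hcc z
    simpa using this
  obtain ⟨t, ht⟩ := fixed_rat hd hc (y := x + c x) (by rw [map_add, hccx]; ring)
  obtain ⟨n, hn⟩ := fixed_rat hd hc (y := x * c x) (by rw [map_mul, hccx]; ring)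
  have hrat : ∀ (ψ : F →+* A) (q : ℚ), ψ (algebraMap ℚ F q) = (q : A) := by
    intro ψ q
    rw [eq_ratCast, map_ratCast]
  have hroot : (ψ₂ x - ψ₁ x) * (ψ₂ x - ψ₁ (c x)) = 0 := by
    have h1 : ψ₁ x + ψ₁ (c x) = t := by rw [← map_add, ← ht, hrat]
    have h2 : ψ₁ x * ψ₁ (c x) = n := by rw [← map_mul, ← hn, hrat]
    have h3 : ψ₂ x + ψ₂ (c x) = t := by rw [← map_add, ← ht, hrat]
    have h4 : ψ₂ x * ψ₂ (c x) = n := by rw [← map_mul, ← hn, hrat]
    linear_combination (-ψ₂ x) * h1 + h2 + ψ₂ x * h3 - h4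
  rcases mul_eq_zero.mp hroot with h | h
  · exfalso
    apply hne
    ext z
    obtain ⟨a, b, hz⟩ := exists_coords hd hx z
    rw [hz, map_add, map_mul, map_add, map_mul, hrat, hrat, hrat, hrat, sub_eq_zero.mp h]
  · obtain ⟨a, b, hz⟩ := exists_coords hd hx y
    rw [hz, map_add, map_mul, map_add, map_mul, AlgEquiv.commutes, AlgEquiv.commutes, map_add,
      map_mul, hrat, hrat, hrat, hrat, sub_eq_zero.mp h]

end conj

end Pool.Agent.Helper51.SigLeo
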