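import Mathlib

/-!
# The Σ-Leopoldt conjecture: definitions

The objects of problem MP_fc6b1e_nt: `K` is a number field, `H` a finite Galois extension of `K`,
`Ω` an algebraic closure, `p` a prime number; `k` is the field `ℂ_p`.
-/

namespace Pool.Agent.Helper51.SigLeo

open NumberField Module TensorProduct

/-- Iwasawa's `p`-adic logarithm `L : kˣ → k` (for `k = ℂ_p`): the homomorphism with `L(p) = 0`
which is given by `L(u) = ∑_{n ≥ 1} (-1)^(n+1) (u-1)^n / n` whenever `|u - 1| < 1`. -/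
structure IwasawaLog (p : ℕ) (k : Type*) [NormedField k] where
  /-- the underlying function -/
  toFun : kˣ → k
  map_mul : ∀ u v, toFun (u * v) = toFun u + toFun v
  map_p : ∀ u : kˣ, (u : k) = p → toFun u = 0
  hasSum : ∀ u : kˣ, ‖(u : k) - 1‖ < 1 →
    HasSum (fun n : ℕ ↦ (-1) ^ n * ((u : k) - 1) ^ (n + 1) / (n + 1)) (toFun u)

/-- A CM type: exactly one embedding from each pair of complex conjugate embeddings. -/
def IsCMType {K : Type*} [Field K] (S : Set (K →+* ℂ)) : Prop :=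
  ∀ φ : K →+* ℂ, φ ∈ S ↔ ComplexEmbedding.conjugate φ ∉ S

section abstract

variable {k G M : Type*} [Field k] [Group G] [AddCommGroup M]

/-- The `k`-linear extension to `k ⊗ M` of an endomorphism of the abelian group `M`. -/
noncomputable def extEnd (f : M →+ M) : (k ⊗[ℤ] M) →ₗ[k] (k ⊗[ℤ] M) :=
  f.toIntLinearMap.baseChange k

/-- The `k`-linear extension to `k ⊗ M` of a homomorphism `M → k`. -/
noncomputable def extHom (f : M →+ k) : (k ⊗[ℤ] M) →ₗ[k] k :=
  LinearMap.liftBaseChange k f.toIntLinearMap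

/-- For a group `G` of order `n` acting on `M` by `a` and a character `χ : G → kˣ`, the operator
`e_χ = n⁻¹ ∑_g χ(g⁻¹) ⊗ g` on `k ⊗ M`. -/
noncomputable def eChi (n : ℕ) (χ : G →* kˣ) (a : G → M →+ M) (x : k ⊗[ℤ] M) : k ⊗[ℤ] M :=
  (n : k)⁻¹ • ∑ᶠ g : G, (χ g⁻¹ : k) • extEnd (a g) x

/-- The homomorphisms `ℓ ∈ T` from `M` to `k` are jointly injective on `e_χ(k ⊗ M)`: an element
`e_χ(x)` is zero if all the `k`-linear extensions of the `ℓ ∈ T` vanish on it. -/
def InjectiveOn (n : ℕ) (χ : G →* kˣ) (a : G → M →+ M) (T : Set (M →+ k)) : Prop :=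
  ∀ x : k ⊗[ℤ] M, (∀ ℓ ∈ T, extHom ℓ (eChi n χ a x) = 0) → eChi n χ a x = 0

end abstract

section

variable {K H : Type*} [Field K] [Field H] [Algebra K H]

/-- The action of `τ ∈ Gal(H/K)` on the units of `H`, written additively. -/
noncomputable def unitsHom (τ : H ≃ₐ[K] H) : Additive (𝓞 H)ˣ →+ Additive (𝓞 H)ˣ :=
  AddMonoidHom.mk' (fun u ↦ .ofMul (Units.map (RingOfIntegers.mapRingHom (τ : H →+* H)) u.toMul))
    fun _ _ ↦ congrArg Additive.ofMul (map_mul _ _ _)

/-- The map `u ↦ L(ι(u))` on the units of `H`, for an embedding `ι : H → k`. -/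
noncomputable def logUnits {p : ℕ} {k : Type*} [NormedField k] (L : IwasawaLog p k)
    (ι : H →+* k) : Additive (𝓞 H)ˣ →+ k :=
  AddMonoidHom.mk' (fun u ↦ L.toFun (Units.map (ι.comp (algebraMap (𝓞 H) H)) u.toMul))
    fun _ _ ↦ (congrArg L.toFun (map_mul _ _ _)).trans (L.map_mul _ _)

/-- The components of the map `log_{Σ,p}`: the homomorphisms `u ↦ L(ι_p σ(u))`, for `σ` in `Σ_H`,
the set of the embeddings `σ` of `H` in `Ω` such that `ι_∞ σ|_K` is in the CM type `S`. -/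
def logSigma {Ω : Type*} [Field Ω] {p : ℕ} {k : Type*} [NormedField k] (ιinf : Ω →+* ℂ)
    (ιp : Ω →+* k) (S : Set (K →+* ℂ)) (L : IwasawaLog p k) : Set (Additive (𝓞 H)ˣ →+ k) :=
  {ℓ | ∃ σ : H →+* Ω, ιinf.comp (σ.comp (algebraMap K H)) ∈ S ∧ ℓ = logUnits L (ιp.comp σ)}

variable (K H)

/-- The conclusion of the `Σ`-Leopoldt conjecture for all the data over `p`, `K` and `H`: for all
embeddings `ι_∞`, `ι_p` of the algebraic closure `Ω` of `K` in `ℂ` and `k = ℂ_p`, all CM types `S`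
of `K`, all faithful characters `χ` of `Gal(H/K)` and for Iwasawa's logarithm `L`, the map
`log_{Σ,p}` is injective on `e_χ(k ⊗ (𝓞_H)ˣ)`. -/
def SigmaLeopoldt (Ω : Type*) [Field Ω] (p : ℕ) (k : Type*) [NormedField k] : Prop :=
  ∀ (ιinf : Ω →+* ℂ) (ιp : Ω →+* k) (S : Set (K →+* ℂ)) (χ : (H ≃ₐ[K] H) →* kˣ)
    (L : IwasawaLog p k), IsCMType S → Function.Injective χ →
      InjectiveOn (finrank K H) χ unitsHom (logSigma ιinf ιp S L)

end

end Pool.Agent.Helper51.SigLeo
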