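import Pool.Agent.Helper51.SigLeo.UnitMod

namespace Pool.Agent.Helper51.SigLeo

open NumberField Module

/-- Clearing denominators. -/
theorem exists_nat_mul_integral {F : Type*} [Field F] [NumberField F] (x : F) :
    ∃ n : ℤ, n ≠ 0 ∧ IsIntegral ℤ ((n : F) * x) := by
  have halg : IsAlgebraic ℤ x := by
    rw [IsFractionRing.isAlgebraic_iff ℤ ℚ F]
    exact Algebra.IsAlgebraic.isAlgebraic x
  obtain ⟨y, hy, hint⟩ := halg.exists_integral_multiple
  exact ⟨y, hy, by rwa [zsmul_eq_mul] at hint⟩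

/-- An integral element whose square is not rational, in a quadratic field. -/
theorem exists_integral_sq_not_rat {F : Type*} [Field F] [NumberField F] (hd : finrank ℚ F = 2) :
    ∃ m : F, IsIntegral ℤ m ∧ m ^ 2 ∉ (algebraMap ℚ F).range := by
  obtain ⟨x, hx⟩ := exists_not_mem hd
  obtain ⟨n, hn, hint⟩ := exists_nat_mul_integral x
  have hnx : (n : F) * x ∉ (algebraMap ℚ F).range := by
    rintro ⟨q, hq⟩
    apply hx
    refine ⟨q / n, ?_⟩
    have hn' : (n : F) ≠ 0 := by exact_mod_cast hn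
    rw [map_div₀, hq]
    simp
    field_simp
  by_cases h : ((n : F) * x) ^ 2 ∈ (algebraMap ℚ F).range
  · refine ⟨1 + (n : F) * x, isIntegral_one.add hint, ?_⟩
    rintro ⟨q, hq⟩
    obtain ⟨r, hr⟩ := h
    apply hnx
    refine ⟨(q - r - 1) / 2, ?_⟩
    rw [map_div₀, map_sub, map_sub, hq, hr, map_one, map_ofNat]
    field_simp
    ring
  · exact ⟨_, hint, h⟩

/-- Positivity: if `K = F(θ)` is totally complex and `F` is totally real then `θ² = -δ` with `δ`
totally positive. -/
theorem delta_pos {F K : Type*} [Field F] [NumberField F] [Field K] [NumberField K] [Algebra F K]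
    [IsTotallyReal F] [IsTotallyComplex K] (hKF : finrank F K = 2) {θ : K} {δ : F}
    (hθ : θ ∉ (algebraMap F K).range) (hθ2 : θ ^ 2 = algebraMap F K (-δ)) (φ : F →+* ℝ) :
    0 < φ δ := by
  by_contra hneg
  push Not at hneg
  let s : F →+* ℂ := Complex.ofRealHom.comp φ
  let ψ := ComplexEmbedding.lift K s
  have hψ : ∀ x : F, ψ (algebraMap F K x) = (φ x : ℂ) := fun x ↦
    ComplexEmbedding.lift_algebraMap_apply K s x
  have hz : (ψ θ) ^ 2 = ((-(φ δ) : ℝ) : ℂ) := by
    rw [← map_pow, hθ2, hψ, map_neg]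
  have him : (ψ θ).im = 0 := by
    have h1 := congrArg Complex.re hz
    have h2 := congrArg Complex.im hz
    rw [pow_two, Complex.mul_re, Complex.ofReal_re] at h1
    rw [pow_two, Complex.mul_im, Complex.ofReal_im] at h2
    by_contra him
    have hre : (ψ θ).re = 0 := by
      have : (ψ θ).re * (ψ θ).im = 0 := by linarith
      exact (mul_eq_zero.mp this).resolve_right him
    rw [hre] at h1
    have : 0 < (ψ θ).im * (ψ θ).im := mul_self_pos.mpr him
    linarith
  have hreal : ComplexEmbedding.IsReal ψ := by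
    rw [ComplexEmbedding.isReal_iff]
    ext y
    obtain ⟨a, b, hab⟩ := exists_coords hKF hθ y
    rw [ComplexEmbedding.conjugate_coe_eq, hab, map_add, map_mul, hψ, hψ, map_add, map_mul,
      Complex.conj_ofReal, Complex.conj_ofReal, Complex.conj_eq_iff_im.mpr him]
  exact IsTotallyComplex.complexEmbedding_not_isReal ψ hreal

/-- A totally imaginary quadratic extension `K` of a real quadratic field `F` is of the form
`F(√-δ)` with `δ` totally positive, integral and irrational. -/
theorem exists_theta {F K : Type*} [Field F] [NumberField F] [Field K] [NumberField K]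
    [Algebra F K] [IsTotallyReal F] [IsTotallyComplex K] (hd : finrank ℚ F = 2)
    (hKF : finrank F K = 2) :
    ∃ (θ : K) (δ : F), θ ∉ (algebraMap F K).range ∧ θ ^ 2 = algebraMap F K (-δ) ∧
      IsIntegral ℤ δ ∧ δ ∉ (algebraMap ℚ F).range ∧ ∀ φ : F →+* ℝ, 0 < φ δ := by
  obtain ⟨θ₀, d, hθ₀, hd₀⟩ := exists_sqrt hKF
  obtain ⟨n, hn, hint⟩ := exists_nat_mul_integral d
  have hscale : ∀ (θ : K) (m : F), m ≠ 0 → θ ∉ (algebraMap F K).range →
      algebraMap F K m * θ ∉ (algebraMap F K).range := by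
    rintro θ m hm hθ ⟨y, hy⟩
    apply hθ
    refine ⟨y / m, ?_⟩
    have hm' : algebraMap F K m ≠ 0 := by rwa [Ne, FaithfulSMul.algebraMap_eq_zero_iff]
    rw [map_div₀, hy]
    field_simp
  have hnF : (n : F) ≠ 0 := by exact_mod_cast hn
  -- first scaling
  have key : ∀ (θ : K) (δ : F), θ ∉ (algebraMap F K).range → θ ^ 2 = algebraMap F K (-δ) →
      IsIntegral ℤ δ → ∃ (θ : K) (δ : F), θ ∉ (algebraMap F K).range ∧
        θ ^ 2 = algebraMap F K (-δ) ∧ IsIntegral ℤ δ ∧ δ ∉ (algebraMap ℚ F).range := by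
    intro θ δ hθ hθ2 hδ
    by_cases h : δ ∈ (algebraMap ℚ F).range
    · obtain ⟨m, hm, hm2⟩ := exists_integral_sq_not_rat hd
      have hm0 : m ≠ 0 := by
        rintro rfl
        apply hm2
        exact ⟨0, by simp⟩
      have hδ0 : δ ≠ 0 := by
        rintro rfl
        apply hθ
        rw [neg_zero, map_zero] at hθ2
        exact ⟨0, by rw [map_zero, eq_comm]; exact pow_eq_zero_iff (two_ne_zero) |>.mp hθ2⟩
      refine ⟨algebraMap F K m * θ, m ^ 2 * δ, hscale θ m hm0 hθ, ?_, (hm.pow 2).mul hδ, ?_⟩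
      · rw [mul_pow, hθ2, ← map_pow, ← map_mul]
        congr 1
        ring
      · rintro ⟨q, hq⟩
        obtain ⟨r, hr⟩ := h
        apply hm2
        refine ⟨q / r, ?_⟩
        rw [map_div₀, hq, hr]
        field_simp
    · exact ⟨θ, δ, hθ, hθ2, hδ, h⟩
  obtain ⟨θ, δ, hθ, hθ2, hδ, hδ'⟩ := key (algebraMap F K n * θ₀) (-(n ^ 2 * d))
    (hscale θ₀ n hnF hθ₀)
    (by
      rw [mul_pow, hd₀, ← map_pow, ← map_mul]
      congr 1
      ring)
    (by
      have : -((n : F) ^ 2 * d) = -((n : F) * ((n : F) * d)) := by ring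
      rw [this]
      exact ((isIntegral_algebraMap (R := ℤ) (A := F) (x := n)).mul hint).neg)
  exact ⟨θ, δ, hθ, hθ2, hδ, hδ', delta_pos hKF hθ hθ2⟩

end Pool.Agent.Helper51.SigLeo
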