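import Pool.Agent.Helper51.SigLeo.Defs

namespace Pool.Agent.Helper51.SigLeo

open NumberField Module TensorProduct

variable {p : ℕ} [hp : Fact p.Prime] {k : Type*} [NormedField k] [NormedAlgebra ℚ_[p] k]

omit [NormedAlgebra ℚ_[p] k] in
theorem norm_sub_le_max' [IsUltrametricDist k] (x y : k) : ‖x - y‖ ≤ max ‖x‖ ‖y‖ := by
  rw [sub_eq_add_neg, ← norm_neg y]
  exact IsUltrametricDist.norm_add_le_max _ _

variable (p) in
include p in
theorem charZero_of_padic : CharZero k :=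
  charZero_of_injective_algebraMap (algebraMap ℚ_[p] k).injective

variable (p) in
theorem norm_natCast_eq (n : ℕ) : ‖(n : k)‖ = ‖(n : ℚ_[p])‖ := by
  rw [← norm_algebraMap' k (n : ℚ_[p]), map_natCast]

variable (p) in
theorem norm_intCast_eq (n : ℤ) : ‖(n : k)‖ = ‖(n : ℚ_[p])‖ := by
  rw [← norm_algebraMap' k (n : ℚ_[p]), map_intCast]

variable (p) in
include p in
theorem norm_natCast_le_one (n : ℕ) : ‖(n : k)‖ ≤ 1 := by
  rw [norm_natCast_eq p]
  exact_mod_cast Padic.norm_int_le_one (p := p) (n : ℤ)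

variable (p) in
include p in
theorem one_div_le_norm_natCast (n : ℕ) (hn : n ≠ 0) : 1 / (n : ℝ) ≤ ‖(n : k)‖ := by
  rw [norm_natCast_eq p, Padic.norm_eq_zpow_neg_valuation (by exact_mod_cast hn),
    Padic.valuation_natCast, zpow_neg, zpow_natCast, one_div]
  have h1 : (0 : ℝ) < (p : ℝ) ^ padicValNat p n := by
    have := hp.out.pos
    positivity
  apply inv_anti₀ h1
  exact_mod_cast Nat.le_of_dvd (Nat.pos_of_ne_zero hn) pow_padicValNat_dvd

/-- The basic estimate for the logarithm near `1`. -/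
theorem IwasawaLog.norm_sub_le [IsUltrametricDist k] (L : IwasawaLog p k) (u : kˣ) (hu : ‖(u : k) - 1‖ ≤ 1 / 2) :
    ‖L.toFun u - ((u : k) - ((u⁻¹ : kˣ) : k)) / 2‖ ≤
      3 * ‖(u : k) - 1‖ ^ 3 := by
  have := charZero_of_padic p (k := k)
  set x : k := (u : k) - 1 with hx
  have hux : (u : k) = 1 + x := by rw [hx]; ring
  have hf := L.hasSum u (lt_of_le_of_lt hu (by norm_num))
  rw [← hx] at hf
  have hg : HasSum (fun n : ℕ ↦ (-x) ^ n) (1 - (-x))⁻¹ :=
    hasSum_geometric_of_norm_lt_one (by rw [norm_neg]; exact lt_of_le_of_lt hu (by norm_num))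
  have hg2 : HasSum (fun n : ℕ ↦ (-x) ^ (n + 1)) ((1 - (-x))⁻¹ - 1) := by
    have := (hasSum_nat_add_iff' 1).mpr hg
    simpa using this
  have hh : HasSum (fun n : ℕ ↦ (-1 : k) ^ n * x ^ (n + 1) * (1 / ((n : k) + 1) - 1 / 2))
      (L.toFun u + ((1 - (-x))⁻¹ - 1) / 2) := by
    have h2 := hf.add (hg2.div_const 2)
    have h3 : (fun n : ℕ ↦ (-1 : k) ^ n * x ^ (n + 1) * (1 / ((n : k) + 1) - 1 / 2)) =
        fun n : ℕ ↦ (-1 : k) ^ n * x ^ (n + 1) / ((n : k) + 1) + (-x) ^ (n + 1) / 2 := by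
      funext n
      have : (-x) ^ (n + 1) = - ((-1) ^ n * x ^ (n + 1)) := by
        rw [neg_pow, pow_succ (-1 : k) n]; ring
      rw [this]
      ring
    rw [h3]
    exact h2
  have hh2 := (hasSum_nat_add_iff' 2).mpr hh
  have hval : L.toFun u + ((1 - (-x))⁻¹ - 1) / 2 -
      ∑ i ∈ Finset.range 2, ((-1 : k) ^ i * x ^ (i + 1) * (1 / ((i : k) + 1) - 1 / 2)) =
      L.toFun u - ((u : k) - ((u⁻¹ : kˣ) : k)) / 2 := by
    rw [Finset.sum_range_succ, Finset.sum_range_one, Units.val_inv_eq_inv_val, hux]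
    have : (1 - (-x)) = 1 + x := by ring
    rw [this]
    norm_num
    ring
  rw [hval] at hh2
  have hbound : ∀ n : ℕ, ‖(-1 : k) ^ (n + 2) * x ^ (n + 2 + 1) *
      (1 / (((n + 2 : ℕ) : k) + 1) - 1 / 2)‖ ≤ 3 * ‖x‖ ^ 3 := by
    intro n
    have h1 : ‖(1 / (((n + 2 : ℕ) : k) + 1) - 1 / 2)‖ ≤ (n : ℝ) + 3 := by
      refine (norm_sub_le_max' _ _).trans (max_le ?_ ?_)
      · have := one_div_le_norm_natCast p (k := k) (n + 3) (by omega)
        rw [norm_div, norm_one]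
        have h3 : (((n + 2 : ℕ) : k) + 1) = ((n + 3 : ℕ) : k) := by push_cast; ring
        rw [h3, div_le_iff₀ (by refine lt_of_lt_of_le ?_ this; positivity)]
        have h4 : (0 : ℝ) < (n : ℝ) + 3 := by positivity
        calc (1 : ℝ) = ((n : ℝ) + 3) * (1 / (((n + 3 : ℕ) : ℝ))) := by
              push_cast; field_simp
          _ ≤ _ := mul_le_mul_of_nonneg_left this h4.le
      · have := one_div_le_norm_natCast p (k := k) 2 (by omega)
        rw [norm_div, norm_one]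
        have h5 : (0 : ℝ) < ‖((2 : ℕ) : k)‖ := lt_of_lt_of_le (by norm_num) this
        push_cast at this h5
        rw [div_le_iff₀ h5]
        have h6 : (0 : ℝ) ≤ n := by positivity
        nlinarith
    rw [norm_mul, norm_mul, norm_pow, norm_neg, norm_one, one_pow, one_mul, norm_pow]
    have hx0 : 0 ≤ ‖x‖ := norm_nonneg _
    have h7 : ‖x‖ ^ n * ((n : ℝ) + 3) ≤ 3 := by
      have h8 : ‖x‖ ^ n ≤ (1 / 2) ^ n := pow_le_pow_left₀ hx0 hu n
      have h9 : (n : ℝ) + 1 ≤ 2 ^ n := by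
        have := one_add_mul_le_pow (a := (1 : ℝ)) (by norm_num) n
        norm_num at this
        linarith
      have h10 : (1 / 2 : ℝ) ^ n * 2 ^ n = 1 := by rw [← mul_pow]; norm_num
      have h11 : (0 : ℝ) ≤ (1 / 2) ^ n := by positivity
      calc ‖x‖ ^ n * ((n : ℝ) + 3) ≤ (1 / 2) ^ n * ((n : ℝ) + 3) :=
            mul_le_mul_of_nonneg_right h8 (by positivity)
        _ ≤ (1 / 2) ^ n * (3 * 2 ^ n) := by
            apply mul_le_mul_of_nonneg_left _ h11
            nlinarith [(Nat.cast_nonneg n : (0 : ℝ) ≤ n)]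
        _ = 3 := by rw [mul_left_comm, h10, mul_one]
    calc ‖x‖ ^ (n + 2 + 1) * ‖(1 / (((n + 2 : ℕ) : k) + 1) - 1 / 2)‖
        ≤ ‖x‖ ^ (n + 2 + 1) * ((n : ℝ) + 3) := by
          apply mul_le_mul_of_nonneg_left h1 (by positivity)
      _ = (‖x‖ ^ n * ((n : ℝ) + 3)) * ‖x‖ ^ 3 := by ring
      _ ≤ 3 * ‖x‖ ^ 3 := mul_le_mul_of_nonneg_right h7 (by positivity)
  rw [← hh2.tsum_eq]
  exact IsUltrametricDist.norm_tsum_le_of_forall_le_of_nonneg (by positivity) hbound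

end Pool.Agent.Helper51.SigLeo
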