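import Pool.Agent.Helper51.SigLeo.Member
import Pool.Agent.Helper93.SquarePairs

namespace Pool.Agent.Helper51.SigLeo

open NumberField Module

/-- The signs of `-κ(1+δκ)`. -/
theorem signs_real {d e k : ℝ} (hd : 0 < d) (h : (1 + d) * k = e - 1) :
    (1 < e → -(k * (1 + d * k)) < 0) ∧ (e < 1 → 0 < e → 0 < -(k * (1 + d * k))) := by
  have h1 : 0 < 1 + d := by linarith
  have hk : k = (e - 1) / (1 + d) := by field_simp; linarith
  constructor
  · intro he
    have : 0 < k := by rw [hk]; exact div_pos (by linarith) h1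
    have : 0 < k * (1 + d * k) := by positivity
    linarith
  · intro he he0
    have hk0 : k < 0 := by rw [hk]; exact div_neg_of_neg_of_pos (by linarith) h1
    have h2 : (1 + d) * (1 + d * k) = 1 + d * e := by linear_combination d * h
    have h3 : 0 < 1 + d * k := by
      have h4 : 0 < (1 + d) * (1 + d * k) := by rw [h2]; positivity
      exact (mul_pos_iff_of_pos_left h1).mp h4
    nlinarith

section

variable {F K : Type*} [Field F] [CharZero F] [Field K] [Algebra F K]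

/-- Elements of mixed signature are not squares in `K`. -/
theorem not_square (hKF : finrank F K = 2) {θ : K} {δ : F}
    (hθ : θ ∉ (algebraMap F K).range) (hθ2 : θ ^ 2 = algebraMap F K (-δ))
    (hδ : ∀ φ : F →+* ℝ, 0 < φ δ) {D : F} {σ₁ σ₂ : F →+* ℝ} (h₁ : σ₁ D < 0) (h₂ : 0 < σ₂ D)
    (x : K) : x ^ 2 ≠ algebraMap F K D := by
  intro hx
  obtain ⟨y, ⟨-, hy⟩ | ⟨-, hy⟩⟩ := sq_in_base hKF hθ hθ2 hx
  · rw [hy, map_pow] at h₁
    exact absurd h₁ (not_lt.mpr (sq_nonneg _))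
  · rw [hy, map_mul, map_pow, map_neg] at h₂
    have := hδ σ₂
    nlinarith [sq_nonneg (σ₂ y)]

/-- If `K(√D) = K(√D')` then `DD'` is a square in `F`. -/
theorem mul_eq_sq_of_adjoin_eq (hKF : finrank F K = 2) {θ : K} {δ : F}
    (hθ : θ ∉ (algebraMap F K).range) (hθ2 : θ ^ 2 = algebraMap F K (-δ))
    (hδ : ∀ φ : F →+* ℝ, 0 < φ δ) {D D' : F} {σ₁ σ₂ : F →+* ℝ} (h₁ : σ₁ D < 0) (h₂ : 0 < σ₂ D)
    (h₁' : σ₁ D' < 0) (h₂' : 0 < σ₂ D') {Ω : Type*} [Field Ω] [Algebra K Ω] {ω ω' : Ω}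
    (hω : ω ^ 2 = algebraMap K Ω (algebraMap F K D))
    (hω' : ω' ^ 2 = algebraMap K Ω (algebraMap F K D'))
    (heq : IntermediateField.adjoin K {ω} = IntermediateField.adjoin K {ω'}) :
    ∃ y : F, D * D' = y ^ 2 := by
  have hK : CharZero K := charZero_of_injective_algebraMap (algebraMap F K).injective
  have hωK : ω ∉ (algebraMap K Ω).range := by
    rintro ⟨x, rfl⟩
    rw [← map_pow] at hω
    exact not_square hKF hθ hθ2 hδ h₁ h₂ x ((algebraMap K Ω).injective hω)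
  have hH : finrank K (IntermediateField.adjoin K {ω}) = 2 := finrank_adjoin_sqrt hω hωK
  let w : IntermediateField.adjoin K {ω} := ⟨ω, IntermediateField.mem_adjoin_simple_self K ω⟩
  let w' : IntermediateField.adjoin K {ω} :=
    ⟨ω', by rw [heq]; exact IntermediateField.mem_adjoin_simple_self K ω'⟩
  have hw : w ^ 2 = algebraMap K _ (algebraMap F K D) := Subtype.ext hω
  have hw' : w' ^ 2 = algebraMap K _ (algebraMap F K D') := Subtype.ext hω'
  have hwK : w ∉ (algebraMap K (IntermediateField.adjoin K {ω})).range := by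
    rintro ⟨x, hx⟩
    exact hωK ⟨x, congrArg Subtype.val hx⟩
  obtain ⟨y, ⟨-, hy⟩ | ⟨-, hy⟩⟩ := sq_in_base hH hwK hw hw'
  · exact absurd hy.symm (not_square hKF hθ hθ2 hδ h₁' h₂' y)
  · have hx : (y * algebraMap F K D) ^ 2 = algebraMap F K (D * D') := by
      rw [map_mul, hy]; ring
    obtain ⟨z, ⟨-, hz⟩ | ⟨-, hz⟩⟩ := sq_in_base hKF hθ hθ2 hx
    · exact ⟨z, hz⟩
    · exfalso
      have h3 := congrArg σ₁ hz
      rw [map_mul, map_mul, map_pow, map_neg] at h3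
      have h4 := hδ σ₁
      have h5 : 0 < σ₁ D * σ₁ D' := mul_pos_of_neg_of_neg h₁ h₁'
      nlinarith [sq_nonneg (σ₁ z)]

end

/-- A pigeonhole principle: a sequence with finite range has coincidences at arbitrarily late
places with a bounded gap. -/
theorem infinite_range_of_gap {α : Type*} (f : ℕ → α)
    (h : ∀ m : ℕ, 0 < m → {k : ℕ | 1 ≤ k ∧ f k = f (k + m)}.Finite) :
    (f '' {k | 1 ≤ k}).Infinite := by
  intro hfin
  classical
  set N := hfin.toFinset.card with hN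
  have hU : (⋃ m ∈ Finset.Icc 1 N, {k : ℕ | 1 ≤ k ∧ f k = f (k + m)}).Finite := by
    refine Set.Finite.biUnion (Finset.finite_toSet _) fun m hm ↦ h m ?_
    have := Finset.mem_Icc.mp (Finset.mem_coe.mp hm)
    omega
  obtain ⟨b, hb⟩ := hU.bddAbove
  have hmaps : ∀ i ∈ Finset.range (N + 1), f (b + 1 + i) ∈ hfin.toFinset := by
    intro i _
    rw [Set.Finite.mem_toFinset]
    exact ⟨b + 1 + i, by show 1 ≤ b + 1 + i; omega, rfl⟩
  obtain ⟨i, hi, j, hj, hij, hf⟩ := Finset.exists_ne_map_eq_of_card_lt_of_maps_to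
    (by rw [Finset.card_range]; omega) hmaps
  wlog hlt : i < j generalizing i j with H
  · exact H j hj i hi hij.symm hf.symm (by omega)
  rw [Finset.mem_range] at hi hj
  have hmem : b + 1 + i ∈ ⋃ m ∈ Finset.Icc 1 N, {k : ℕ | 1 ≤ k ∧ f k = f (k + m)} := by
    rw [Set.mem_iUnion₂]
    refine ⟨j - i, Finset.mem_Icc.mpr ⟨by omega, by omega⟩, by omega, ?_⟩
    rw [hf]
    congr 1
    omega
  have := hb hmem
  omega

/-- **Main theorem.** -/
theorem main (F K : Type*) [Field F] [NumberField F] [Field K] [NumberField K]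
    [Algebra F K] [IsTotallyReal F] [IsTotallyComplex K] (hd : finrank ℚ F = 2)
    (hKF : finrank F K = 2) (P : Finset ℕ) :
    {H : IntermediateField K (AlgebraicClosure K) | finrank K H = 2 ∧
      (∃ (D : F) (ω : AlgebraicClosure K), (∃ φ : F →+* ℝ, φ D < 0) ∧ (∃ φ : F →+* ℝ, 0 < φ D) ∧
        ω ^ 2 = algebraMap K (AlgebraicClosure K) (algebraMap F K D) ∧
        H = IntermediateField.adjoin K {ω}) ∧
      ∀ p ∈ P, ∀ _ : Fact p.Prime,
        SigmaLeopoldt K H (AlgebraicClosure K) p ℂ_[p]}.Infinite := by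
  obtain ⟨θ, δ, hθ, hθ2, hδint, hδrat, hδpos⟩ := exists_theta (F := F) (K := K) hd hKF
  obtain ⟨c, hc⟩ := exists_gal hd
  obtain ⟨M, hM0, hM⟩ := exists_modulus hd hc hδint hδrat P
  -- a real embedding
  obtain ⟨σ⟩ : Nonempty (F →+* ℝ) := by
    obtain ⟨φ⟩ : Nonempty (F →+* ℂ) := inferInstance
    exact ⟨(IsTotallyReal.complexEmbedding_isReal φ).embedding⟩
  have hδ1 : 1 + δ ≠ 0 := by
    intro h
    have h1 := hδpos σ
    have h2 := congrArg σ h
    rw [map_add, map_one, map_zero] at h2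
    linarith
  have hMF : (M : F) ≠ 0 := by exact_mod_cast hM0
  obtain ⟨δ', hδ'⟩ : ∃ d : 𝓞 F, algebraMap (𝓞 F) F d = δ := ⟨⟨δ, hδint⟩, rfl⟩
  obtain ⟨a, hacoe⟩ : ∃ a : 𝓞 F, algebraMap (𝓞 F) F a = (1 + δ) * M :=
    ⟨(1 + δ') * (M : 𝓞 F), by rw [map_mul, map_add, map_one, map_intCast, hδ']⟩
  have ha : a ≠ 0 := by
    intro h
    rw [h, map_zero] at hacoe
    exact mul_ne_zero hδ1 hMF hacoe.symm
  obtain ⟨η, β, hηβ, hηtors, hηpos, hηc⟩ := exists_unit_mod hd hc a ha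
  have hηβ' : (η : F) - 1 = (1 + δ) * M * (β : F) := by
    have := congrArg (algebraMap (𝓞 F) F) hηβ
    rw [map_sub, map_one, map_mul, hacoe] at this
    exact this
  have hη1 : (η : F) ≠ 1 := by
    intro h
    apply hηtors 1 one_ne_zero
    rw [pow_one]
    exact Units.coe_injective F (show (η : F) = ((1 : (𝓞 F)ˣ) : F) by rw [h, Units.coe_one])
  -- the place where `η > 1`
  obtain ⟨σ₁, hσ₁⟩ : ∃ σ₁ : F →+* ℝ, 1 < σ₁ (η : F) := by
    have hne : σ (η : F) ≠ 1 := by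
      intro h
      rw [← map_one σ] at h
      exact hη1 (σ.injective h)
    rcases lt_or_gt_of_ne hne with h | h
    · refine ⟨σ.comp (c : F →+* F), ?_⟩
      show 1 < σ (c (η : F))
      have h1 := congrArg σ hηc
      rw [map_mul, map_one] at h1
      have h2 := hηpos σ
      by_contra h3
      push Not at h3
      nlinarith
    · exact ⟨σ, h⟩
  have hother : ∀ φ : F →+* ℝ, φ ≠ σ₁ → φ (η : F) < 1 := by
    intro φ hφ
    rw [embedding_eq_comp hd hc hφ]
    have h1 := congrArg σ₁ hηc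
    rw [map_mul, map_one] at h1
    nlinarith
  obtain ⟨σ₂, hσ₂⟩ : ∃ σ₂ : F →+* ℝ, σ₂ ≠ σ₁ := by
    refine ⟨σ₁.comp (c : F →+* F), fun h ↦ ?_⟩
    have h0 := congrArg (fun (g : F →+* ℝ) ↦ g (η : F)) h
    have h0' : σ₁ (c (η : F)) = σ₁ (η : F) := h0
    have h1 := congrArg σ₁ hηc
    rw [map_mul, map_one, h0'] at h1
    nlinarith
  -- the family
  let s : ℕ → F := fun k ↦ ∑ i ∈ Finset.range k, (η : F) ^ i
  let κ : ℕ → F := fun k ↦ M * ((β : F) * s k)
  have hκ : ∀ k, (1 + δ) * κ k = (η : F) ^ k - 1 := by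
    intro k
    have h1 : s k * ((η : F) - 1) = (η : F) ^ k - 1 := geom_sum_mul _ _
    show (1 + δ) * (M * ((β : F) * s k)) = _
    rw [← h1, hηβ']
    ring
  have hηint : IsIntegral ℤ (η : F) := RingOfIntegers.isIntegral_coe _
  have hβint : IsIntegral ℤ (β : F) := RingOfIntegers.isIntegral_coe _
  have hsint : ∀ k, IsIntegral ℤ (s k) := fun k ↦ IsIntegral.sum _ fun i _ ↦ hηint.pow i
  have hκint' : ∀ k, IsIntegral ℤ ((β : F) * s k) := fun k ↦ hβint.mul (hsint k)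
  have hκint : ∀ k, IsIntegral ℤ (κ k) := fun k ↦
    (isIntegral_algebraMap (R := ℤ) (A := F) (x := M)).mul (hκint' k)
  have hκM : ∀ k, ∃ κ' : F, IsIntegral ℤ κ' ∧ κ k = M * κ' := fun k ↦ ⟨_, hκint' k, rfl⟩
  clear_value κ
  have hηpow : ∀ k : ℕ, 1 ≤ k → (η : F) ^ k ≠ 1 := by
    intro k hk h
    apply hηtors k (by omega)
    exact Units.coe_injective F
      (show ((η ^ k : (𝓞 F)ˣ) : F) = ((1 : (𝓞 F)ˣ) : F) by rw [Units.coe_pow, h, Units.coe_one])
  have hκ0 : ∀ k : ℕ, 1 ≤ k → κ k ≠ 0 := by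
    intro k hk h
    have := hκ k
    rw [h, mul_zero] at this
    exact hηpow k hk (sub_eq_zero.mp this.symm)
  let D : ℕ → F := fun k ↦ -(κ k * (1 + δ * κ k))
  have hDsign : ∀ k : ℕ, 1 ≤ k → σ₁ (D k) < 0 ∧ 0 < σ₂ (D k) := by
    intro k hk
    have key : ∀ φ : F →+* ℝ, (1 + φ δ) * φ (κ k) = φ (η : F) ^ k - 1 := by
      intro φ
      have := congrArg φ (hκ k)
      rwa [map_mul, map_add, map_one, map_sub, map_pow, map_one] at this
    have hval : ∀ φ : F →+* ℝ, φ (D k) = -(φ (κ k) * (1 + φ δ * φ (κ k))) := by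
      intro φ
      show φ (-(κ k * (1 + δ * κ k))) = _
      rw [map_neg, map_mul, map_add, map_one, map_mul]
    constructor
    · rw [hval]
      exact (signs_real (hδpos σ₁) (key σ₁)).1 (one_lt_pow₀ hσ₁ (by omega))
    · rw [hval]
      exact (signs_real (hδpos σ₂) (key σ₂)).2
        (pow_lt_one₀ (hηpos σ₂).le (hother σ₂ hσ₂) (by omega)) (pow_pos (hηpos σ₂) k)
  have hroot : ∀ k : ℕ, ∃ ω : AlgebraicClosure K,
      ω ^ 2 = algebraMap K (AlgebraicClosure K) (algebraMap F K (D k)) := fun k ↦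
    IsAlgClosed.exists_pow_nat_eq _ (by norm_num)
  choose ω hω using hroot
  have hωK : ∀ k : ℕ, 1 ≤ k → ω k ∉ (algebraMap K (AlgebraicClosure K)).range := by
    rintro k hk ⟨x, hx⟩
    have h1 := hω k
    rw [← hx, ← map_pow] at h1
    exact not_square hKF hθ hθ2 hδpos (hDsign k hk).1 (hDsign k hk).2 x
      ((algebraMap K (AlgebraicClosure K)).injective h1)
  have hinf : ((fun k ↦ IntermediateField.adjoin K {ω k}) '' {k : ℕ | 1 ≤ k}).Infinite := by
    apply infinite_range_of_gap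
    intro m hm
    refine (Pool.Agent.Helper93.finite_square_pairs (F := F) inferInstance δ (η : F) hδint hδpos
      (by
        rintro rfl
        exact hδrat ⟨1, by simp⟩) hηpos σ₁ hσ₁ hother κ hκ hκint m hm).subset ?_
    rintro k ⟨hk, hk2⟩
    obtain ⟨y, hy⟩ := mul_eq_sq_of_adjoin_eq hKF hθ hθ2 hδpos (hDsign k hk).1 (hDsign k hk).2
      (hDsign (k + m) (by omega)).1 (hDsign (k + m) (by omega)).2 (hω k) (hω (k + m)) hk2
    refine ⟨y, ?_⟩
    rw [← hy]
    show _ = -(κ k * (1 + δ * κ k)) * -(κ (k + m) * (1 + δ * κ (k + m)))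
    ring
  refine hinf.mono ?_
  rintro H ⟨k, hk, rfl⟩
  have hk' : 1 ≤ k := hk
  refine ⟨finrank_adjoin_sqrt (hω k) (hωK k hk'), ⟨D k, ω k, ⟨σ₁, (hDsign k hk').1⟩,
    ⟨σ₂, (hDsign k hk').2⟩, hω k, rfl⟩, ?_⟩
  intro p hp hpf
  obtain ⟨hM4, hMδ⟩ := hM p hp hpf ℂ_[p]
  refine sigmaLeopoldt_member hd hKF p ℂ_[p] hθ2 hδint (η ^ k) (κ k) (hκ0 k hk') ?_ hδ1 M
    (hκM k) hM4 hMδ (ω k) (hω k) (hωK k hk')
  rw [Units.coe_pow]
  exact hκ k

end Pool.Agent.Helper51.SigLeo
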