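import Pool.Agent.Helper51.SigLeo.Family

namespace Pool.Agent.Helper51.SigLeo.InfinitelyManyQuadratic

open NumberField Module Pool.Agent.Helper51.SigLeo

/-- Let `F` be a real quadratic field, `K` a totally imaginary quadratic extension of `F` and `P` a
finite set of primes. There are infinitely many quadratic extensions `H = K(√D)` of `K`, with
`D ∈ F` negative at one real place of `F` and positive at the other one, such that for all
`p ∈ P`, all CM types `Σ` of `K` and the nontrivial character `χ` of `Gal(H/K)`, the map
`log_{Σ,p}` is injective on the `χ`-part of `ℂ_p ⊗ (𝓞_H)ˣ`. -/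
theorem result (F K : Type*) [Field F] [NumberField F] [Field K] [NumberField K] [Algebra F K]
    [IsTotallyReal F] [IsTotallyComplex K] (hF : finrank ℚ F = 2) (hK : finrank F K = 2)
    (P : Finset ℕ) :
    {H : IntermediateField K (AlgebraicClosure K) | finrank K H = 2 ∧
      (∃ (D : F) (ω : AlgebraicClosure K), (∃ φ : F →+* ℝ, φ D < 0) ∧ (∃ φ : F →+* ℝ, 0 < φ D) ∧
        ω ^ 2 = algebraMap K (AlgebraicClosure K) (algebraMap F K D) ∧
        H = IntermediateField.adjoin K {ω}) ∧
      ∀ p ∈ P, ∀ _ : Fact p.Prime,
        SigmaLeopoldt K H (AlgebraicClosure K) p ℂ_[p]}.Infinite :=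
  main F K hF hK P

end Pool.Agent.Helper51.SigLeo.InfinitelyManyQuadratic
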