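import Pool.Agent.Helper51.SigLeo.Quad

namespace Pool.Agent.Helper51.SigLeo

open NumberField Module

theorem exists_unit_not_torsion (F : Type*) [Field F] [NumberField F] [IsTotallyReal F]
    (hd : finrank ℚ F = 2) : ∃ ε : (𝓞 F)ˣ, ∀ n : ℕ, n ≠ 0 → ε ^ n ≠ 1 := by
  have hrank : Units.rank F = 1 := by
    have h1 := IsTotallyReal.finrank (K := F)
    have h2 : Fintype.card (InfinitePlace F) =
        InfinitePlace.nrRealPlaces F + InfinitePlace.nrComplexPlaces F :=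
      InfinitePlace.card_eq_nrRealPlaces_add_nrComplexPlaces F
    rw [IsTotallyReal.nrComplexPlaces_eq_zero] at h2
    unfold Units.rank
    omega
  let i : Fin (Units.rank F) := ⟨0, by omega⟩
  refine ⟨Units.fundSystem F i, fun n hn h ↦ ?_⟩
  have h1 : (1 : (𝓞 F)ˣ) = ((1 : Units.torsion F), (0 : Fin (Units.rank F) → ℤ)).1 *
      ∏ j, Units.fundSystem F j ^ ((1 : Units.torsion F), (0 : Fin (Units.rank F) → ℤ)).2 j := by
    simp
  have h2 : (1 : (𝓞 F)ˣ) = ((1 : Units.torsion F), (Pi.single i (n : ℤ) :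
      Fin (Units.rank F) → ℤ)).1 *
      ∏ j, Units.fundSystem F j ^ ((1 : Units.torsion F), (Pi.single i (n : ℤ) :
        Fin (Units.rank F) → ℤ)).2 j := by
    rw [Finset.prod_eq_single i]
    · simp [h]
    · intro j _ hj
      simp [Pi.single_eq_of_ne hj]
    · simp
  have h3 := (Units.exist_unique_eq_mul_prod F 1).unique h1 h2
  have h4 := congrFun (congrArg Prod.snd h3) i
  simp at h4
  exact hn (by exact_mod_cast h4.symm)

theorem int_of_integral_rat {F : Type*} [Field F] [CharZero F] {y : F}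
    (hy : y ∈ (algebraMap ℚ F).range) (hint : IsIntegral ℤ y) : ∃ n : ℤ, y = n := by
  obtain ⟨q, rfl⟩ := hy
  have hq : IsIntegral ℤ q := by
    rwa [isIntegral_algebraMap_iff (algebraMap ℚ F).injective] at hint
  obtain ⟨n, rfl⟩ := IsIntegrallyClosed.isIntegral_iff.mp hq
  exact ⟨n, by simp⟩

theorem exists_unit_mod {F : Type*} [Field F] [NumberField F] [IsTotallyReal F]
    (hd : finrank ℚ F = 2) {c : F ≃ₐ[ℚ] F} (hc : c ≠ 1) (a : 𝓞 F) (ha : a ≠ 0) :
    ∃ (η : (𝓞 F)ˣ) (β : 𝓞 F), (η : 𝓞 F) - 1 = a * β ∧ (∀ n : ℕ, n ≠ 0 → η ^ n ≠ 1) ∧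
      (∀ φ : F →+* ℝ, 0 < φ (η : F)) ∧ (η : F) * c (η : F) = 1 := by
  obtain ⟨ε, hε⟩ := exists_unit_not_torsion F hd
  have hfin : Finite (𝓞 F ⧸ Ideal.span {a}) :=
    Ideal.finiteQuotientOfFreeOfNeBot _ (by simpa using ha)
  let k := Nat.card ((𝓞 F ⧸ Ideal.span {a})ˣ)
  have hk : 0 < k := Nat.card_pos
  let η : (𝓞 F)ˣ := ε ^ (2 * k)
  have hmap : Units.map (Ideal.Quotient.mk (Ideal.span {a}) : 𝓞 F →* 𝓞 F ⧸ Ideal.span {a}) η
      = 1 := by
    show Units.map _ (ε ^ (2 * k)) = 1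
    rw [map_pow, pow_mul']
    have := pow_card_eq_one' (x := Units.map
      (Ideal.Quotient.mk (Ideal.span {a}) : 𝓞 F →* 𝓞 F ⧸ Ideal.span {a}) ε)
    rw [this, one_pow]
  have hmem : (η : 𝓞 F) - 1 ∈ Ideal.span {a} := by
    rw [← Ideal.Quotient.eq_zero_iff_mem, map_sub, map_one, sub_eq_zero]
    exact congrArg Units.val hmap
  obtain ⟨β, hβ⟩ := Ideal.mem_span_singleton'.mp hmem
  have hcc : c * c = 1 := tau_mul_tau hd c hc
  have hccx : ∀ z, c (c z) = z := fun z ↦ by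
    have := AlgEquiv.congr_fun hcc z
    simpa using this
  have hcint : ∀ z : F, IsIntegral ℤ z → IsIntegral ℤ (c z) := fun z hz ↦
    hz.map (c.toAlgHom.restrictScalars ℤ)
  have hnorm : ((ε : F) * c (ε : F)) ^ 2 = 1 := by
    have hne : (ε : F) ≠ 0 := Units.coe_ne_zero ε
    have h1 : ∀ u : (𝓞 F)ˣ, ∃ n : ℤ, (u : F) * c (u : F) = n := by
      intro u
      apply int_of_integral_rat
      · exact fixed_rat hd hc (by rw [map_mul, hccx]; ring)
      · exact (RingOfIntegers.isIntegral_coe _).mul (hcint _ (RingOfIntegers.isIntegral_coe _))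
    obtain ⟨n, hn⟩ := h1 ε
    obtain ⟨m, hm⟩ := h1 ε⁻¹
    have hnm : n * m = 1 := by
      have : ((n * m : ℤ) : F) = 1 := by
        push_cast
        rw [← hn, ← hm]
        have hu : (ε : F) * ((ε⁻¹ : (𝓞 F)ˣ) : F) = 1 := by
          rw [← Units.coe_mul, mul_inv_cancel, Units.coe_one]
        calc (ε : F) * c (ε : F) * (((ε⁻¹ : (𝓞 F)ˣ) : F) * c ((ε⁻¹ : (𝓞 F)ˣ) : F))
            = ((ε : F) * ((ε⁻¹ : (𝓞 F)ˣ) : F)) * (c (ε : F) * c ((ε⁻¹ : (𝓞 F)ˣ) : F)) := by ring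
          _ = ((ε : F) * ((ε⁻¹ : (𝓞 F)ˣ) : F)) * (c ((ε : F) * ((ε⁻¹ : (𝓞 F)ˣ) : F))) := by
              rw [map_mul]
          _ = 1 := by rw [hu, map_one, mul_one]
      exact_mod_cast this
    rw [hn]
    rcases Int.eq_one_or_neg_one_of_mul_eq_one hnm with h | h <;> simp [h]
  refine ⟨η, β, by rw [← hβ, mul_comm], ?_, ?_, ?_⟩
  · intro n hn h
    apply hε (2 * k * n) (by positivity)
    rw [pow_mul]
    exact h
  · intro φ
    have : (η : F) = ((ε : F) ^ k) ^ 2 := by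
      show ((ε ^ (2 * k) : (𝓞 F)ˣ) : F) = _
      rw [Units.coe_pow, ← pow_mul, mul_comm]
    rw [this, map_pow]
    have hne : φ ((ε : F) ^ k) ≠ 0 := by
      rw [Ne, map_eq_zero]
      exact pow_ne_zero _ (Units.coe_ne_zero ε)
    positivity
  · have : (η : F) = (ε : F) ^ (2 * k) := by
      show ((ε ^ (2 * k) : (𝓞 F)ˣ) : F) = _
      rw [Units.coe_pow]
    rw [this, map_pow, ← mul_pow, pow_mul, hnorm, one_pow]

end Pool.Agent.Helper51.SigLeo
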